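import Pool.Agent.Helper38.Scroll.P1

/-!
# Vector bundles on a smooth projective curve and their projectivizations: definitions

`k` is an algebraically closed field of characteristic zero and `K` a finite extension of `k(x)`,
i.e. the function field of a smooth projective curve `C` over `k` with a finite morphism
`x : C → ℙ¹`. The points of `ℙ¹` are the elements of `Option k`, `none` being the point at infinity.

A vector bundle `E` of rank `n` on `C` with a trivialization at the generic point is given by its
stalks along the fibres of `x`: these are free modules of rank `n` over the semilocal rings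
`regRing k K a` of `C` over `a ∈ ℙ¹`, i.e. lattices in `K^n`; such a lattice is given by a frame, an
invertible matrix whose columns form a basis of the lattice.
-/

namespace Pool.Agent.Helper38.Scroll

open Matrix

section

variable (k K : Type) [Field k] [Field K] [Algebra (RatFunc k) K] [Algebra k K]
  [IsScalarTower k (RatFunc k) K]

/-- The semilocal ring of the curve with function field `K` over the point `a` of the projective
line: the functions in `K` regular at all points over `a`. -/
noncomputable abbrev regRing (a : Option k) : Subalgebra (localRing a) K :=
  integralClosure (localRing a) K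

variable {k K}

/-- The sum of the orders of `f` at all points of the curve over `a`, i.e. the order at `a` of the
norm of `f`. -/
noncomputable def ordOver (a : Option k) (f : K) : ℤ := ordAt a (Algebra.norm (RatFunc k) f)

/-- The lattice spanned by the columns of `h` over the semilocal ring at `a`. -/
noncomputable def lattice {r : ℕ} (a : Option k) (h : Matrix (Fin r) (Fin r) K) :
    Submodule (regRing k K a) (Fin r → K) :=
  Submodule.span (regRing k K a) (Set.range hᵀ)

/-- A vector bundle of rank `n` on the curve, given by frames `g a` of its stalks over all points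
`a` of the projective line: almost all stalks are trivial. -/
def IsBundle {n : ℕ} (g : Option k → Matrix (Fin n) (Fin n) K) : Prop :=
  (∀ a, (g a).det ≠ 0) ∧ {a | lattice a (g a) ≠ lattice a 1}.Finite

/-- The degree of the vector bundle with frames `h`. -/
noncomputable def degree {r : ℕ} (h : Option k → Matrix (Fin r) (Fin r) K) : ℤ :=
  -∑ᶠ a, ordOver a (h a).det

/-- `h` is a family of frames of the image of the bundle with frames `g` under the matrix `A`. -/
def IsQuotientBundle {r n : ℕ} (g : Option k → Matrix (Fin n) (Fin n) K)
    (A : Matrix (Fin r) (Fin n) K) (h : Option k → Matrix (Fin r) (Fin r) K) : Prop :=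
  ∀ a, (h a).det ≠ 0 ∧ lattice a (h a) =
    (lattice a (g a)).map ((Matrix.mulVecLin A).restrictScalars (regRing k K a))

/-- Every quotient bundle (of positive rank) has positive degree. This holds if `E` is ample, i.e.
if the tautological line bundle on `ℙ(E)` is ample (and conversely, by a theorem of Hartshorne). -/
def HasPositiveQuotients {n : ℕ} (g : Option k → Matrix (Fin n) (Fin n) K) : Prop :=
  ∀ r : ℕ, 0 < r → ∀ A : Matrix (Fin r) (Fin n) K, A.rank = r →
    ∀ h : Option k → Matrix (Fin r) (Fin r) K, IsQuotientBundle g A h → 0 < degree h

/-- The differential `twist a • f dx` is the differential `f dx` if `a` is finite, and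
`f = twist a * f'` with a local coordinate at infinity: `f dx` is regular at the point `a` of the
projective line if and only if `twist a * f` is a regular function at `a`. -/
noncomputable def twist : Option k → RatFunc k
  | none => RatFunc.X ^ 2
  | some _ => 1

/-- `w dx` is a generator of the differentials of the curve at all points over `a`: a differential
`f dx` is regular over `a` if and only if the traces of all `b f dx`, `b` regular over `a`, are
regular differentials at `a` (duality for the covering of the projective line by the curve), and
this holds if and only if `f` is a multiple of `w` by a function regular over `a`. -/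
def IsCanonicalGenerator (a : Option k) (w : K) : Prop :=
  w ≠ 0 ∧ ∀ f : K,
    (∀ b ∈ regRing k K a, twist a * Algebra.trace (RatFunc k) K (f * b) ∈ localRing a) ↔
      ∃ b ∈ regRing k K a, f = w * b

/-- A global section of `Sym² E ⊗ K_C ⊗ det E`, `E` with frames `g`: over each `a` it is
`(Σ T_ij g_i g_j) ⊗ (w dx) ⊗ (g_1 ∧ ... ∧ g_n)` with a symmetric matrix `T` of functions regular
over `a`, where `g_1, ..., g_n` are the columns of the frame `g a`. -/
structure GlobalSection {n : ℕ} (g : Option k → Matrix (Fin n) (Fin n) K) (w : Option k → K) where
  /-- the rational section -/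
  mat : Matrix (Fin n) (Fin n) K
  /-- its coordinates in the local frames -/
  loc : ∀ a : Option k, Matrix (Fin n) (Fin n) (regRing k K a)
  symm : ∀ a, (loc a).IsSymm
  eq : ∀ a, mat = (w a * (g a).det) •
    (g a * (loc a).map (algebraMap (regRing k K a) K) * (g a)ᵀ)

/-- The value of a section at the `R`-valued point of `ℙ(E)` given by an `R`-valued point `θ` of the
curve and the quotient `R^n → R` of the fibre of `E` with coordinates `ℓ`, in the given local
frames. -/
noncomputable def GlobalSection.value {n : ℕ} {g : Option k → Matrix (Fin n) (Fin n) K}
    {w : Option k → K} (s : GlobalSection g w) {R : Type} [CommRing R] [Algebra k R] {a : Option k}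
    (θ : regRing k K a →ₐ[k] R) (ℓ : Fin n → R) : R :=
  ℓ ⬝ᵥ ((s.loc a).map θ *ᵥ ℓ)

/-- The closed points of the curve: the points over `a ∈ ℙ¹` are the `k`-algebra homomorphisms
from the semilocal ring at `a` to `k`. -/
abbrev CurvePoint (k K : Type) [Field k] [Field K] [Algebra (RatFunc k) K] [Algebra k K]
    [IsScalarTower k (RatFunc k) K] : Type :=
  Σ a : Option k, (regRing k K a →ₐ[k] k)

/-- The line bundle `O(2) ⊗ π^*(K_C ⊗ det E)` on `ℙ(E)` is very ample: its global sections, i.e.
those of `Sym² E ⊗ K_C ⊗ det E`, have no common zero, separate the points of `ℙ(E)` (pairs of a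
point of `C` and a one-dimensional quotient of the fibre) and its tangent vectors (`k[ε]`-valued
points which are not constant, i.e. not of the form `θ = χ`, `ℓ = (1 + cε) ℓ₀` with `χ`, `ℓ₀`
defined over `k`). -/
structure IsVeryAmple {n : ℕ} (g : Option k → Matrix (Fin n) (Fin n) K) (w : Option k → K) :
    Prop where
  nonvanishing : ∀ (p : CurvePoint k K) (x : Projectivization k (Fin n → k)),
    ∃ s : GlobalSection g w, s.value p.2 x.rep ≠ 0
  separates_points : ∀ (p p' : CurvePoint k K) (x x' : Projectivization k (Fin n → k)),
    (p, x) ≠ (p', x') → ∃ s : GlobalSection g w, s.value p.2 x.rep = 0 ∧ s.value p'.2 x'.rep ≠ 0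
  separates_tangents : ∀ (a : Option k) (θ : regRing k K a →ₐ[k] DualNumber k)
    (ℓ : Fin n → DualNumber k), (∃ i, (ℓ i).fst ≠ 0) →
    ¬ ((∀ b, (θ b).snd = 0) ∧ ∃ c : k, ∀ i, (ℓ i).snd = c * (ℓ i).fst) →
    ∃ s : GlobalSection g w, (s.value θ ℓ).fst = 0 ∧ (s.value θ ℓ).snd ≠ 0

end

end Pool.Agent.Helper38.Scroll
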