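import Pool.Agent.Helper38.Scroll.P1

/-!
# Serre duality on the projective line for families of lattices
-/

namespace Pool.Agent.Helper38.Scroll

open Polynomial

section

variable {k : Type} [Field k] {U : Type} [AddCommGroup U] [Module (RatFunc k) U] [Module k U]
  [IsScalarTower k (RatFunc k) U]

/-- A family of local lattices in `U`, one for each rational point of the projective line. -/
structure LatticeFamily (k U : Type) [Field k] [AddCommGroup U] [Module (RatFunc k) U] where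
  W : ∀ a : Option k, Submodule (localRing a) U
  fin : ∀ u : U, {a | u ∉ W a}.Finite
  absorb : ∀ (a : Option k) (u : U), ∃ n : ℕ, (unifAt a) ^ n • u ∈ W a

variable (L : LatticeFamily k U)

lemma LatticeFamily.smul_mem {a : Option k} {r : RatFunc k} (hr : r ∈ localRing a) {u : U}
    (hu : u ∈ L.W a) : r • u ∈ L.W a :=
  (L.W a).smul_mem (⟨r, hr⟩ : localRing a) hu

lemma unifAt_mem (a : Option k) : unifAt a ∈ localRing a := by
  rw [mem_localRing_of_ne (unifAt_ne_zero a), ordAt_unifAt]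
  norm_num

lemma ordAt_poly (a : k) {f : k[X]} (hf : f ≠ 0) :
    ordAt (some a) (algebraMap k[X] (RatFunc k) f) = f.rootMultiplicity a := by
  have h1 := ordAt_div a (p := f) (q := 1) hf one_ne_zero
  have h2 : rootMultiplicity a (1 : k[X]) = 0 := by rw [← C_1, rootMultiplicity_C]
  rw [map_one, div_one, h2] at h1
  rw [h1]
  simp

lemma poly_mem (a : k) (f : k[X]) : algebraMap k[X] (RatFunc k) f ∈ localRing (some a) := by
  by_cases hf : f = 0
  · rw [hf, map_zero]; exact Subalgebra.zero_mem _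
  rw [mem_localRing_of_ne (RatFunc.algebraMap_ne_zero hf)]
  rw [ordAt_poly a hf]
  exact Int.natCast_nonneg _

/-- The sections over the affine line. -/
def LatticeFamily.W0 : Submodule k U where
  carrier := {u | ∀ a : k, u ∈ L.W (some a)}
  add_mem' := fun hu hv a => (L.W (some a)).add_mem (hu a) (hv a)
  zero_mem' := fun a => (L.W (some a)).zero_mem
  smul_mem' := by
    intro c u hu a
    have : c • u = (algebraMap k (RatFunc k) c) • u := by
      rw [algebraMap_smul]
    rw [this]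
    exact L.smul_mem ((localRing (some a)).algebraMap_mem c) (hu a)

/-- The lattice at infinity as a `k`-subspace. -/
def LatticeFamily.Wi : Submodule k U where
  carrier := {u | u ∈ L.W none}
  add_mem' := fun hu hv => (L.W none).add_mem hu hv
  zero_mem' := (L.W none).zero_mem
  smul_mem' := by
    intro c u hu
    have : c • u = (algebraMap k (RatFunc k) c) • u := by
      rw [algebraMap_smul]
    rw [Set.mem_ofPred_eq, this]
    exact L.smul_mem ((localRing none).algebraMap_mem c) hu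

lemma LatticeFamily.mem_W0 {u : U} : u ∈ L.W0 ↔ ∀ a : k, u ∈ L.W (some a) := Iff.rfl

lemma LatticeFamily.mem_Wi {u : U} : u ∈ L.Wi ↔ u ∈ L.W none := Iff.rfl

lemma LatticeFamily.poly_smul_mem_W0 (f : k[X]) {u : U} (hu : u ∈ L.W0) :
    (algebraMap k[X] (RatFunc k) f) • u ∈ L.W0 :=
  fun a => L.smul_mem (poly_mem a f) (hu a)

lemma LatticeFamily.exists_denom (u : U) :
    ∃ f : k[X], f ≠ 0 ∧ (∀ a : k, u ∈ L.W (some a) → f.eval a ≠ 0) ∧
      (algebraMap k[X] (RatFunc k) f) • u ∈ L.W0 := by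
  classical
  have hfin : {a : k | u ∉ L.W (some a)}.Finite := by
    have := (L.fin u).preimage (Option.some_injective k).injOn
    exact this
  choose n hn using fun a : k => L.absorb (some a) u
  set S : Finset k := hfin.toFinset with hS
  refine ⟨∏ b ∈ S, (X - C b) ^ n b, ?_, ?_, ?_⟩
  · exact Finset.prod_ne_zero_iff.mpr fun b _ => pow_ne_zero _ (X_sub_C_ne_zero b)
  · intro a ha
    rw [eval_prod]
    apply Finset.prod_ne_zero_iff.mpr
    intro b hb
    rw [eval_pow, eval_sub, eval_X, eval_C]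
    apply pow_ne_zero
    intro h
    rw [sub_eq_zero] at h
    subst h
    rw [hS, Set.Finite.mem_toFinset] at hb
    exact hb ha
  · intro a
    by_cases ha : u ∈ L.W (some a)
    · exact L.smul_mem (poly_mem a _) ha
    · have ha' : a ∈ S := by
        rw [hS, Set.Finite.mem_toFinset]
        exact ha
      rw [← Finset.prod_erase_mul S _ ha', map_mul, mul_smul]
      apply L.smul_mem (poly_mem a _)
      rw [map_pow, ← unifAt_some]
      exact hn a

section functional

variable (μ : U →ₗ[k] k)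

/-- `X⁻¹`-divisibility: for each `u` the values `μ (X⁻ʲ u)` vanish for large `j`. -/
lemma LatticeFamily.eventually_zero (hμ : ∀ u ∈ L.Wi, μ u = 0) (u : U) :
    ∃ n : ℕ, ∀ j, n ≤ j → μ ((RatFunc.X : RatFunc k)⁻¹ ^ j • u) = 0 := by
  obtain ⟨n, hn⟩ := L.absorb none u
  refine ⟨n, fun j hj => hμ _ ?_⟩
  obtain ⟨i, rfl⟩ := Nat.exists_eq_add_of_le' hj
  rw [pow_add, mul_smul]
  exact L.smul_mem (pow_mem (unifAt_mem none) i) hn

/-- The polynomial with coefficients `μ (X^{-(j+1)} u)`. -/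
noncomputable def LatticeFamily.Pfun (hμ : ∀ u ∈ L.Wi, μ u = 0) (u : U) : k[X] :=
  ∑ j ∈ Finset.range (L.eventually_zero μ hμ u).choose,
    monomial j (μ ((RatFunc.X : RatFunc k)⁻¹ ^ (j + 1) • u))

lemma LatticeFamily.coeff_Pfun (hμ : ∀ u ∈ L.Wi, μ u = 0) (u : U) (j : ℕ) :
    (L.Pfun μ hμ u).coeff j = μ ((RatFunc.X : RatFunc k)⁻¹ ^ (j + 1) • u) := by
  rw [LatticeFamily.Pfun, finsetSum_coeff]
  simp only [coeff_monomial]
  rw [Finset.sum_ite_eq']
  split_ifs with h
  · rfl
  · rw [Finset.mem_range, not_lt] at h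
    rw [(L.eventually_zero μ hμ u).choose_spec (j + 1) (by omega)]

/-- The polynomial with coefficients `μ (X^{-(j+1)} u)`, as a linear map. -/
noncomputable def LatticeFamily.P (hμ : ∀ u ∈ L.Wi, μ u = 0) : U →ₗ[k] k[X] where
  toFun u := L.Pfun μ hμ u
  map_add' := by
    intro u v
    ext j
    rw [coeff_add, L.coeff_Pfun, L.coeff_Pfun, L.coeff_Pfun, smul_add, map_add]
  map_smul' := by
    intro c u
    ext j
    rw [RingHom.id_apply, coeff_smul, L.coeff_Pfun, L.coeff_Pfun, ← map_smul]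
    congr 1
    rw [← algebraMap_smul (RatFunc k) c u, ← algebraMap_smul (RatFunc k) c, smul_smul, smul_smul,
      mul_comm]

lemma LatticeFamily.coeff_P (hμ : ∀ u ∈ L.Wi, μ u = 0) (u : U) (j : ℕ) :
    (L.P μ hμ u).coeff j = μ ((RatFunc.X : RatFunc k)⁻¹ ^ (j + 1) • u) :=
  L.coeff_Pfun μ hμ u j

lemma LatticeFamily.P_X_smul (hμ : ∀ u ∈ L.Wi, μ u = 0) (hμ0 : ∀ u ∈ L.W0, μ u = 0) {u : U}
    (hu : u ∈ L.W0) : L.P μ hμ ((RatFunc.X : RatFunc k) • u) = X * L.P μ hμ u := by
  ext j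
  rw [L.coeff_P]
  cases j with
  | zero =>
    rw [coeff_X_mul_zero, zero_add, pow_one, smul_smul, inv_mul_cancel₀ RatFunc.X_ne_zero,
      one_smul]
    exact hμ0 u hu
  | succ j =>
    rw [coeff_X_mul, L.coeff_P, smul_smul, pow_succ, mul_assoc,
      inv_mul_cancel₀ RatFunc.X_ne_zero, mul_one]

lemma LatticeFamily.P_poly_smul (hμ : ∀ u ∈ L.Wi, μ u = 0) (hμ0 : ∀ u ∈ L.W0, μ u = 0) (f : k[X])
    {u : U} (hu : u ∈ L.W0) :
    L.P μ hμ ((algebraMap k[X] (RatFunc k) f) • u) = f * L.P μ hμ u := by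
  induction f using Polynomial.induction_on' with
  | add p q hp hq => rw [map_add, add_smul, map_add, hp, hq, add_mul]
  | monomial n c =>
    induction n with
    | zero =>
      rw [monomial_zero_left]
      have : algebraMap k[X] (RatFunc k) (C c) = algebraMap k (RatFunc k) c := by simp
      rw [this, algebraMap_smul, map_smul, C_mul']
    | succ n ih =>
      have h1 : (monomial (n + 1) c : k[X]) = X * monomial n c := by
        rw [X_mul_monomial]
      rw [h1, map_mul, RatFunc.algebraMap_X, mul_smul,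
        L.P_X_smul μ hμ hμ0 (L.poly_smul_mem_W0 _ hu), ih, mul_assoc]

/-- The `k(x)`-linear functional attached to `μ`. -/
noncomputable def LatticeFamily.lam (hμ : ∀ u ∈ L.Wi, μ u = 0) (u : U) : RatFunc k :=
  algebraMap k[X] (RatFunc k) (L.P μ hμ
    ((algebraMap k[X] (RatFunc k) (L.exists_denom u).choose) • u)) /
    algebraMap k[X] (RatFunc k) (L.exists_denom u).choose

lemma LatticeFamily.lam_mul (hμ : ∀ u ∈ L.Wi, μ u = 0) (hμ0 : ∀ u ∈ L.W0, μ u = 0) (u : U)
    (f : k[X]) (hf : (algebraMap k[X] (RatFunc k) f) • u ∈ L.W0) :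
    algebraMap k[X] (RatFunc k) f * L.lam μ hμ u =
      algebraMap k[X] (RatFunc k) (L.P μ hμ ((algebraMap k[X] (RatFunc k) f) • u)) := by
  set g := (L.exists_denom u).choose with hg
  obtain ⟨hg0, -, hg2⟩ := (L.exists_denom u).choose_spec
  rw [← hg] at hg0 hg2
  have hg' : algebraMap k[X] (RatFunc k) g ≠ 0 := RatFunc.algebraMap_ne_zero hg0
  rw [LatticeFamily.lam, ← hg, mul_div_assoc', div_eq_iff hg', ← map_mul, ← map_mul,
    ← L.P_poly_smul μ hμ hμ0 f hg2, mul_comm _ g, ← L.P_poly_smul μ hμ hμ0 g hf, smul_smul,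
    smul_smul, mul_comm]

lemma LatticeFamily.lam_add (hμ : ∀ u ∈ L.Wi, μ u = 0) (hμ0 : ∀ u ∈ L.W0, μ u = 0) (u v : U) :
    L.lam μ hμ (u + v) = L.lam μ hμ u + L.lam μ hμ v := by
  obtain ⟨f, hf0, -, hf⟩ := L.exists_denom u
  obtain ⟨g, hg0, -, hg⟩ := L.exists_denom v
  have hfg : algebraMap k[X] (RatFunc k) (f * g) ≠ 0 :=
    RatFunc.algebraMap_ne_zero (mul_ne_zero hf0 hg0)
  have h1 : (algebraMap k[X] (RatFunc k) (f * g)) • u ∈ L.W0 := by
    rw [mul_comm, map_mul, mul_smul]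
    exact L.poly_smul_mem_W0 g hf
  have h2 : (algebraMap k[X] (RatFunc k) (f * g)) • v ∈ L.W0 := by
    rw [map_mul, mul_smul]
    exact L.poly_smul_mem_W0 f hg
  have h3 : (algebraMap k[X] (RatFunc k) (f * g)) • (u + v) ∈ L.W0 := by
    rw [smul_add]
    exact L.W0.add_mem h1 h2
  apply mul_left_cancel₀ hfg
  rw [mul_add, L.lam_mul μ hμ hμ0 _ _ h1, L.lam_mul μ hμ hμ0 _ _ h2, L.lam_mul μ hμ hμ0 _ _ h3,
    smul_add, map_add, map_add]

lemma LatticeFamily.lam_smul (hμ : ∀ u ∈ L.Wi, μ u = 0) (hμ0 : ∀ u ∈ L.W0, μ u = 0)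
    (c : RatFunc k) (u : U) : L.lam μ hμ (c • u) = c * L.lam μ hμ u := by
  obtain ⟨f, hf0, -, hf⟩ := L.exists_denom u
  have hq : algebraMap k[X] (RatFunc k) c.denom ≠ 0 := RatFunc.algebraMap_ne_zero c.denom_ne_zero
  have hf' : algebraMap k[X] (RatFunc k) f ≠ 0 := RatFunc.algebraMap_ne_zero hf0
  have hc : c * algebraMap k[X] (RatFunc k) c.denom = algebraMap k[X] (RatFunc k) c.num := by
    rw [← eq_div_iff hq, RatFunc.num_div_denom]
  have h1 : (algebraMap k[X] (RatFunc k) (c.denom * f)) • (c • u) =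
      (algebraMap k[X] (RatFunc k) c.num) • ((algebraMap k[X] (RatFunc k) f) • u) := by
    rw [smul_smul, smul_smul, map_mul, ← hc]
    congr 1
    ring
  have h2 : (algebraMap k[X] (RatFunc k) (c.denom * f)) • (c • u) ∈ L.W0 := by
    rw [h1]
    exact L.poly_smul_mem_W0 _ hf
  have hqf : algebraMap k[X] (RatFunc k) (c.denom * f) ≠ 0 :=
    RatFunc.algebraMap_ne_zero (mul_ne_zero c.denom_ne_zero hf0)
  apply mul_left_cancel₀ hqf
  rw [L.lam_mul μ hμ hμ0 _ _ h2, h1, L.P_poly_smul μ hμ hμ0 _ hf, map_mul,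
    ← L.lam_mul μ hμ hμ0 _ _ hf, ← hc, map_mul]
  ring

/-- The functional as a linear map over `k(x)`. -/
noncomputable def LatticeFamily.lamLin (hμ : ∀ u ∈ L.Wi, μ u = 0) (hμ0 : ∀ u ∈ L.W0, μ u = 0) :
    U →ₗ[RatFunc k] RatFunc k where
  toFun := L.lam μ hμ
  map_add' := L.lam_add μ hμ hμ0
  map_smul' := fun c u => L.lam_smul μ hμ hμ0 c u

lemma LatticeFamily.lam_mem_finite (hμ : ∀ u ∈ L.Wi, μ u = 0) (hμ0 : ∀ u ∈ L.W0, μ u = 0) (a : k)
    {u : U} (hu : u ∈ L.W (some a)) : L.lam μ hμ u ∈ localRing (some a) := by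
  obtain ⟨f, hf0, hfa, hf⟩ := L.exists_denom u
  have hf' : algebraMap k[X] (RatFunc k) f ≠ 0 := RatFunc.algebraMap_ne_zero hf0
  have h1 := L.lam_mul μ hμ hμ0 u f hf
  by_cases hp : L.P μ hμ ((algebraMap k[X] (RatFunc k) f) • u) = 0
  · rw [hp, map_zero, mul_eq_zero] at h1
    rw [h1.resolve_left hf']
    exact Subalgebra.zero_mem _
  · have h2 : L.lam μ hμ u = algebraMap k[X] (RatFunc k)
        (L.P μ hμ ((algebraMap k[X] (RatFunc k) f) • u)) / algebraMap k[X] (RatFunc k) f := by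
      rw [← h1, mul_div_cancel_left₀ _ hf']
    rw [h2, mem_localRing_of_ne (div_ne_zero (RatFunc.algebraMap_ne_zero hp) hf'),
      ordAt_div a hp hf0, rootMultiplicity_eq_zero (p := f) (x := a) (by
        rw [IsRoot.def]; exact hfa a hu)]
    simp

lemma LatticeFamily.ord_lam_infty (hμ : ∀ u ∈ L.Wi, μ u = 0) (hμ0 : ∀ u ∈ L.W0, μ u = 0)
    {u : U} (hu : u ∈ L.W none) : L.lam μ hμ u = 0 ∨ 2 ≤ ordAt none (L.lam μ hμ u) := by
  obtain ⟨f, hf0, -, hf⟩ := L.exists_denom u
  have hf' : algebraMap k[X] (RatFunc k) f ≠ 0 := RatFunc.algebraMap_ne_zero hf0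
  have h1 := L.lam_mul μ hμ hμ0 u f hf
  by_cases hp : L.P μ hμ ((algebraMap k[X] (RatFunc k) f) • u) = 0
  · rw [hp, map_zero, mul_eq_zero] at h1
    left
    exact h1.resolve_left hf'
  · right
    have hlam : L.lam μ hμ u ≠ 0 := by
      intro h
      rw [h, mul_zero] at h1
      exact RatFunc.algebraMap_ne_zero hp h1.symm
    have h2 := congrArg (ordAt none) h1
    rw [ordAt_mul none hf' hlam] at h2
    have h3 : ∀ p : k[X], ordAt none (algebraMap k[X] (RatFunc k) p) = -(p.natDegree : ℤ) := by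
      intro p
      simp only [ordAt]
      rw [RatFunc.intDegree_polynomial]
    rw [h3, h3] at h2
    -- the degree of the polynomial
    set p := L.P μ hμ ((algebraMap k[X] (RatFunc k) f) • u) with hpdef
    have h4 : p.coeff p.natDegree ≠ 0 := by
      rw [coeff_natDegree, leadingCoeff_ne_zero]
      exact hp
    have h5 : p.natDegree + 2 ≤ f.natDegree := by
      by_contra hcon
      push Not at hcon
      apply h4
      rw [hpdef, L.coeff_P, ← hpdef]
      apply hμ
      rw [L.mem_Wi, smul_smul]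
      apply L.smul_mem _ hu
      have hX : (RatFunc.X : RatFunc k)⁻¹ ≠ 0 := inv_ne_zero RatFunc.X_ne_zero
      rw [mem_localRing_of_ne (mul_ne_zero (pow_ne_zero _ hX) hf'),
        ordAt_mul none (pow_ne_zero _ hX) hf', ordAt_pow none hX, h3]
      have h6 : ordAt none ((RatFunc.X : RatFunc k)⁻¹) = 1 := ordAt_unifAt none
      rw [h6]
      push_cast
      omega
    omega

lemma LatticeFamily.lam_ne_zero (hμ : ∀ u ∈ L.Wi, μ u = 0) (hμ0 : ∀ u ∈ L.W0, μ u = 0)
    (hne : μ ≠ 0) : ∃ u, L.lam μ hμ u ≠ 0 := by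
  by_contra hcon
  push Not at hcon
  apply hne
  -- P vanishes on W0
  have hP : ∀ w ∈ L.W0, L.P μ hμ w = 0 := by
    intro w hw
    have h1 := L.lam_mul μ hμ hμ0 w 1 (by rw [map_one, one_smul]; exact hw)
    rw [hcon, mul_zero, map_one, one_smul] at h1
    by_contra h2
    exact RatFunc.algebraMap_ne_zero h2 h1.symm
  have hμw : ∀ w ∈ L.W0, ∀ j : ℕ, μ ((RatFunc.X : RatFunc k)⁻¹ ^ (j + 1) • w) = 0 := by
    intro w hw j
    rw [← L.coeff_P μ hμ, hP w hw, coeff_zero]
  ext u
  rw [LinearMap.zero_apply]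
  obtain ⟨f, hf0, -, hf⟩ := L.exists_denom u
  have hf' : algebraMap k[X] (RatFunc k) f ≠ 0 := RatFunc.algebraMap_ne_zero hf0
  set w := (algebraMap k[X] (RatFunc k) f) • u with hw
  obtain ⟨n, hn⟩ := L.absorb none w
  -- division of X^(n+1) by f
  set q := (X ^ (n + 1) : k[X]) / f with hq
  set s := (X ^ (n + 1) : k[X]) % f with hs
  have hdiv : (X ^ (n + 1) : k[X]) = f * q + s := (EuclideanDomain.div_add_mod _ _).symm
  have hsdeg : s.degree < f.degree := EuclideanDomain.mod_lt _ hf0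
  have hXne : (RatFunc.X : RatFunc k) ≠ 0 := RatFunc.X_ne_zero
  have hu : u = (RatFunc.X : RatFunc k)⁻¹ ^ (n + 1) • ((algebraMap k[X] (RatFunc k) q) • w) +
      (algebraMap k[X] (RatFunc k) s / algebraMap k[X] (RatFunc k) f) •
        ((RatFunc.X : RatFunc k)⁻¹ ^ (n + 1) • w) := by
    have h1 : (RatFunc.X : RatFunc k) ^ (n + 1) = algebraMap k[X] (RatFunc k) f *
        algebraMap k[X] (RatFunc k) q + algebraMap k[X] (RatFunc k) s := by
      rw [← map_mul, ← map_add, ← hdiv, map_pow, RatFunc.algebraMap_X]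
    have h2 : (RatFunc.X : RatFunc k)⁻¹ ^ (n + 1) * (algebraMap k[X] (RatFunc k) q *
        algebraMap k[X] (RatFunc k) f) +
        algebraMap k[X] (RatFunc k) s / algebraMap k[X] (RatFunc k) f *
          ((RatFunc.X : RatFunc k)⁻¹ ^ (n + 1) * algebraMap k[X] (RatFunc k) f) = 1 := by
      have h3 : (RatFunc.X : RatFunc k)⁻¹ ^ (n + 1) * (RatFunc.X : RatFunc k) ^ (n + 1) = 1 := by
        rw [← mul_pow, inv_mul_cancel₀ hXne, one_pow]
      have h4 : algebraMap k[X] (RatFunc k) s / algebraMap k[X] (RatFunc k) f *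
          ((RatFunc.X : RatFunc k)⁻¹ ^ (n + 1) * algebraMap k[X] (RatFunc k) f) =
          (RatFunc.X : RatFunc k)⁻¹ ^ (n + 1) * algebraMap k[X] (RatFunc k) s := by
        rw [mul_comm ((RatFunc.X : RatFunc k)⁻¹ ^ (n + 1)), ← mul_assoc, div_mul_cancel₀ _ hf',
          mul_comm]
      rw [h4, ← h3, h1]
      ring
    rw [hw]
    simp only [smul_smul]
    rw [← add_smul, h2, one_smul]
  rw [hu, map_add]
  have h3 : μ ((RatFunc.X : RatFunc k)⁻¹ ^ (n + 1) • ((algebraMap k[X] (RatFunc k) q) • w)) = 0 :=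
    hμw _ (L.poly_smul_mem_W0 q hf) n
  have h4 : μ ((algebraMap k[X] (RatFunc k) s / algebraMap k[X] (RatFunc k) f) •
        ((RatFunc.X : RatFunc k)⁻¹ ^ (n + 1) • w)) = 0 := by
    apply hμ
    rw [L.mem_Wi]
    by_cases hs0 : s = 0
    · rw [hs0, map_zero, zero_div, zero_smul]
      exact (L.W none).zero_mem
    apply L.smul_mem
    · have hs' : algebraMap k[X] (RatFunc k) s ≠ 0 := RatFunc.algebraMap_ne_zero hs0
      rw [mem_localRing_of_ne (div_ne_zero hs' hf')]
      simp only [ordAt]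
      rw [RatFunc.intDegree_div hs' hf', RatFunc.intDegree_polynomial,
        RatFunc.intDegree_polynomial]
      have := natDegree_lt_natDegree hs0 hsdeg
      omega
    · rw [pow_succ', mul_smul]
      exact L.smul_mem (unifAt_mem none) hn
  rw [h3, h4, add_zero]

end functional

/-- **Serre duality on the projective line**: if some vector is not a sum of a section over the
affine line and an element of the lattice at infinity, then there is a nonzero linear functional
which is regular at all finite points and vanishes to order two at infinity. -/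
theorem LatticeFamily.exists_functional (h : ∃ u : U, u ∉ L.W0 ⊔ L.Wi) :
    ∃ l : U →ₗ[RatFunc k] RatFunc k, l ≠ 0 ∧
      (∀ (a : k) (u : U), u ∈ L.W (some a) → l u ∈ localRing (some a)) ∧
      (∀ u : U, u ∈ L.W none → l u = 0 ∨ 2 ≤ ordAt none (l u)) := by
  have hlt : L.W0 ⊔ L.Wi < ⊤ := by
    rw [lt_top_iff_ne_top]
    intro htop
    obtain ⟨u, hu⟩ := h
    exact hu (htop ▸ Submodule.mem_top)
  obtain ⟨μ, hμne, hμ⟩ := Submodule.exists_le_ker_of_lt_top _ hlt
  have hμi : ∀ u ∈ L.Wi, μ u = 0 := fun u hu => hμ (Submodule.mem_sup_right hu)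
  have hμ0 : ∀ u ∈ L.W0, μ u = 0 := fun u hu => hμ (Submodule.mem_sup_left hu)
  refine ⟨L.lamLin μ hμi hμ0, ?_, ?_, ?_⟩
  · obtain ⟨u, hu⟩ := L.lam_ne_zero μ hμi hμ0 hμne
    intro h0
    apply hu
    exact congrArg (fun l => l u) h0
  · intro a u hu
    exact L.lam_mem_finite μ hμi hμ0 a hu
  · intro u hu
    exact L.ord_lam_infty μ hμi hμ0 hu

end

end Pool.Agent.Helper38.Scroll
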