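import Mathlib

/-!
# The projective line over a field: local rings at its rational points
-/

namespace Pool.Agent.Helper38.Scroll

open Polynomial

variable {k : Type} [Field k]

/-- The order of vanishing of a rational function `f` at a point of the projective line
`k ∪ {∞}`; `none` stands for `∞`. -/
noncomputable def ordAt : Option k → RatFunc k → ℤ
  | none, f => -f.intDegree
  | some a, f => (f.num.rootMultiplicity a : ℤ) - f.denom.rootMultiplicity a

lemma ordAt_div (a : k) {p q : k[X]} (hp : p ≠ 0) (hq : q ≠ 0) :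
    ordAt (some a) (algebraMap k[X] (RatFunc k) p / algebraMap k[X] (RatFunc k) q) =
      (p.rootMultiplicity a : ℤ) - q.rootMultiplicity a := by
  set f := algebraMap k[X] (RatFunc k) p / algebraMap k[X] (RatFunc k) q with hf
  have hf0 : f ≠ 0 := by
    rw [hf]
    apply div_ne_zero
    · exact RatFunc.algebraMap_ne_zero hp
    · exact RatFunc.algebraMap_ne_zero hq
  have h := (RatFunc.num_mul_eq_mul_denom_iff (x := f) (p := p) hq).mpr rfl
  have h1 := congrArg (rootMultiplicity a) h
  rw [rootMultiplicity_mul (mul_ne_zero (RatFunc.num_ne_zero hf0) hq),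
    rootMultiplicity_mul (mul_ne_zero hp f.denom_ne_zero)] at h1
  simp only [ordAt]
  omega

lemma ordAt_mul (a : Option k) {f g : RatFunc k} (hf : f ≠ 0) (hg : g ≠ 0) :
    ordAt a (f * g) = ordAt a f + ordAt a g := by
  cases a with
  | none =>
    simp only [ordAt]
    rw [RatFunc.intDegree_mul hf hg]
    ring
  | some a =>
    have h := congrArg (rootMultiplicity a) (RatFunc.num_denom_mul f g)
    have h1 := RatFunc.num_ne_zero hf
    have h2 := RatFunc.num_ne_zero hg
    have h3 := RatFunc.num_ne_zero (mul_ne_zero hf hg)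
    have h4 := f.denom_ne_zero
    have h5 := g.denom_ne_zero
    have h6 := (f * g).denom_ne_zero
    rw [rootMultiplicity_mul (mul_ne_zero h3 (mul_ne_zero h4 h5)),
      rootMultiplicity_mul (mul_ne_zero h4 h5),
      rootMultiplicity_mul (mul_ne_zero (mul_ne_zero h1 h2) h6),
      rootMultiplicity_mul (mul_ne_zero h1 h2)] at h
    simp only [ordAt]
    omega

@[simp] lemma ordAt_one (a : Option k) : ordAt a (1 : RatFunc k) = 0 := by
  cases a with
  | none => simp [ordAt]
  | some a => simp [ordAt]

lemma ordAt_inv (a : Option k) {f : RatFunc k} (hf : f ≠ 0) : ordAt a f⁻¹ = -ordAt a f := by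
  have h := ordAt_mul a hf (inv_ne_zero hf)
  rw [mul_inv_cancel₀ hf, ordAt_one] at h
  omega

lemma ordAt_add (a : Option k) {f g : RatFunc k} (hf : f ≠ 0) (hg : g ≠ 0) (hfg : f + g ≠ 0) :
    min (ordAt a f) (ordAt a g) ≤ ordAt a (f + g) := by
  cases a with
  | none =>
    simp only [ordAt]
    have := RatFunc.intDegree_add_le hg hfg
    omega
  | some a =>
    have h := congrArg (rootMultiplicity a) (RatFunc.num_denom_add f g)
    have h0 := RatFunc.num_mul_denom_add_denom_mul_num_ne_zero hfg
    have h1 := RatFunc.num_ne_zero hf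
    have h2 := RatFunc.num_ne_zero hg
    have h3 := RatFunc.num_ne_zero hfg
    have h4 := f.denom_ne_zero
    have h5 := g.denom_ne_zero
    have h6 := (f + g).denom_ne_zero
    have h7 := rootMultiplicity_add (p := f.num * g.denom) (q := f.denom * g.num) a h0
    rw [rootMultiplicity_mul (mul_ne_zero h3 (mul_ne_zero h4 h5)),
      rootMultiplicity_mul (mul_ne_zero h4 h5),
      rootMultiplicity_mul (mul_ne_zero h0 h6)] at h
    rw [rootMultiplicity_mul (mul_ne_zero h1 h5), rootMultiplicity_mul (mul_ne_zero h4 h2)] at h7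
    simp only [ordAt]
    omega

lemma ordAt_algebraMap (a : Option k) {c : k} (hc : c ≠ 0) :
    ordAt a (algebraMap k (RatFunc k) c) = 0 := by
  have h : algebraMap k (RatFunc k) c = algebraMap k[X] (RatFunc k) (C c) := by
    simp
  cases a with
  | none =>
    simp only [ordAt]
    rw [h, RatFunc.intDegree_polynomial]
    simp
  | some a =>
    have h1 := ordAt_div a (p := C c) (q := 1) (by simpa using hc) one_ne_zero
    rw [map_one, div_one, ← h] at h1
    rw [h1]
    simp

/-- The local ring of the projective line at the point `a`. -/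
noncomputable def localRing (a : Option k) : Subalgebra k (RatFunc k) where
  carrier := {f | f = 0 ∨ 0 ≤ ordAt a f}
  mul_mem' := by
    intro f g hf hg
    by_cases hf0 : f = 0
    · left; simp [hf0]
    by_cases hg0 : g = 0
    · left; simp [hg0]
    right
    rw [ordAt_mul a hf0 hg0]
    have h1 := hf.resolve_left hf0
    have h2 := hg.resolve_left hg0
    omega
  add_mem' := by
    intro f g hf hg
    by_cases hf0 : f = 0
    · subst hf0; rw [zero_add]; exact hg
    by_cases hg0 : g = 0
    · subst hg0; rw [add_zero]; exact hf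
    by_cases hfg : f + g = 0
    · left; exact hfg
    right
    have h1 := hf.resolve_left hf0
    have h2 := hg.resolve_left hg0
    have := ordAt_add a hf0 hg0 hfg
    omega
  algebraMap_mem' := by
    intro c
    by_cases hc : c = 0
    · left; simp [hc]
    · right; rw [ordAt_algebraMap a hc]

lemma mem_localRing {a : Option k} {f : RatFunc k} : f ∈ localRing a ↔ f = 0 ∨ 0 ≤ ordAt a f :=
  Iff.rfl

lemma mem_localRing_of_ne {a : Option k} {f : RatFunc k} (hf : f ≠ 0) :
    f ∈ localRing a ↔ 0 ≤ ordAt a f := by
  rw [mem_localRing]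
  simp [hf]

lemma mem_or_inv_mem (a : Option k) (f : RatFunc k) : f ∈ localRing a ∨ f⁻¹ ∈ localRing a := by
  by_cases hf : f = 0
  · left; left; exact hf
  · rw [mem_localRing_of_ne hf, mem_localRing_of_ne (inv_ne_zero hf), ordAt_inv a hf]
    omega

/-- A uniformizer at `a`. -/
noncomputable def unifAt : Option k → RatFunc k
  | none => (RatFunc.X)⁻¹
  | some a => RatFunc.X - algebraMap k (RatFunc k) a

lemma unifAt_some (a : k) : unifAt (some a) = algebraMap k[X] (RatFunc k) (X - C a) := by
  simp [unifAt]

lemma unifAt_ne_zero (a : Option k) : unifAt a ≠ 0 := by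
  cases a with
  | none => simp [unifAt, RatFunc.X_ne_zero]
  | some a =>
    rw [unifAt_some]
    exact RatFunc.algebraMap_ne_zero (X_sub_C_ne_zero a)

lemma ordAt_unifAt (a : Option k) : ordAt a (unifAt a) = 1 := by
  cases a with
  | none =>
    simp only [ordAt, unifAt]
    rw [RatFunc.intDegree_inv, RatFunc.intDegree_X]
    norm_num
  | some a =>
    have h1 := ordAt_div a (p := X - C a) (q := 1) (X_sub_C_ne_zero a) one_ne_zero
    rw [map_one, div_one, ← unifAt_some] at h1
    rw [h1]
    simp [rootMultiplicity_X_sub_C_self]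

lemma ordAt_zpow (a : Option k) {f : RatFunc k} (hf : f ≠ 0) (n : ℤ) :
    ordAt a (f ^ n) = n * ordAt a f := by
  have hnat : ∀ n : ℕ, ordAt a (f ^ n) = n * ordAt a f := by
    intro n
    induction n with
    | zero => simp
    | succ n ih =>
      rw [pow_succ, ordAt_mul a (pow_ne_zero n hf) hf, ih]
      push_cast
      ring
  cases n with
  | ofNat n => simpa using hnat n
  | negSucc n =>
    rw [zpow_negSucc, ordAt_inv a (pow_ne_zero _ hf), hnat]
    push_cast [Int.negSucc_eq]
    ring

lemma ordAt_pow (a : Option k) {f : RatFunc k} (hf : f ≠ 0) (n : ℕ) :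
    ordAt a (f ^ n) = n * ordAt a f := by
  have := ordAt_zpow a hf n
  simpa using this

instance (a : Option k) : IsFractionRing (localRing a) (RatFunc k) where
  map_units := by
    rintro ⟨y, hy⟩
    have : (y : RatFunc k) ≠ 0 := by
      intro h
      exact (nonZeroDivisors.ne_zero hy) (Subtype.ext h)
    exact IsUnit.mk0 _ this
  surj := by
    intro f
    rcases mem_or_inv_mem a f with h | h
    · exact ⟨(⟨f, h⟩, 1), by simp⟩
    · by_cases hf : f = 0
      · exact ⟨(0, 1), by simp [hf]⟩
      · refine ⟨(1, ⟨⟨f⁻¹, h⟩, ?_⟩), ?_⟩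
        · rw [mem_nonZeroDivisors_iff_ne_zero]
          intro h0
          exact (inv_ne_zero hf) (congrArg Subtype.val h0)
        · simp [hf]
  exists_of_eq := by
    intro x y hxy
    exact ⟨1, by simpa using Subtype.ext hxy⟩

instance (a : Option k) : IsPrincipalIdealRing (localRing a) where
  principal := by
    intro I
    by_cases hI : I = ⊥
    · exact ⟨0, by simp [hI]⟩
    obtain ⟨f₀, hf₀, hf₀0⟩ := Submodule.exists_mem_ne_zero_of_ne_bot hI
    -- an element of minimal order
    have hex : ∃ n : ℕ, ∃ f ∈ I, f ≠ 0 ∧ (ordAt a (f : RatFunc k)).toNat = n :=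
      ⟨_, f₀, hf₀, hf₀0, rfl⟩
    classical
    obtain ⟨f, hf, hf0, hfn⟩ := Nat.find_spec hex
    have hmin : ∀ g ∈ I, g ≠ 0 → (ordAt a (f : RatFunc k)).toNat ≤
        (ordAt a (g : RatFunc k)).toNat := by
      intro g hg hg0
      rw [hfn]
      exact Nat.find_min' hex ⟨g, hg, hg0, rfl⟩
    have hne : ∀ g : localRing a, g ≠ 0 → (g : RatFunc k) ≠ 0 := by
      intro g hg h
      exact hg (Subtype.ext h)
    refine ⟨f, le_antisymm ?_ ?_⟩
    · intro g hg
      by_cases hg0 : g = 0
      · rw [hg0]; exact Submodule.zero_mem _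
      have h1 := hmin g hg hg0
      have h2 : 0 ≤ ordAt a (g : RatFunc k) := (mem_localRing_of_ne (hne g hg0)).mp g.2
      have h3 : 0 ≤ ordAt a (f : RatFunc k) := (mem_localRing_of_ne (hne f hf0)).mp f.2
      have h4 : (g : RatFunc k) * (f : RatFunc k)⁻¹ ∈ localRing a := by
        rw [mem_localRing_of_ne (mul_ne_zero (hne g hg0) (inv_ne_zero (hne f hf0))),
          ordAt_mul a (hne g hg0) (inv_ne_zero (hne f hf0)), ordAt_inv a (hne f hf0)]
        omega
      rw [Submodule.mem_span_singleton]
      refine ⟨⟨_, h4⟩, ?_⟩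
      apply Subtype.ext
      simp only [smul_eq_mul, MulMemClass.coe_mul]
      rw [mul_assoc, inv_mul_cancel₀ (hne f hf0), mul_one]
    · rw [Submodule.span_singleton_le_iff_mem]
      exact hf

/-! ### The product formula -/

lemma ordAt_support_subset [DecidableEq k] {f : RatFunc k} (hf : f ≠ 0) :
    {a | ordAt a f ≠ 0} ⊆
      insert none (some '' ((f.num.roots.toFinset ∪ f.denom.roots.toFinset : Finset k) : Set k)) := by
  intro a ha
  cases a with
  | none => exact Set.mem_insert _ _
  | some a =>
    right
    refine ⟨a, ?_, rfl⟩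
    simp only [Set.mem_setOf_eq, ordAt] at ha
    simp only [Finset.coe_union, Set.mem_union, Finset.mem_coe, Multiset.mem_toFinset]
    by_contra hcon
    push Not at hcon
    apply ha
    have h1 : f.num.rootMultiplicity a = 0 := by
      rw [← count_roots]
      exact Multiset.count_eq_zero_of_notMem hcon.1
    have h2 : f.denom.rootMultiplicity a = 0 := by
      rw [← count_roots]
      exact Multiset.count_eq_zero_of_notMem hcon.2
    rw [h1, h2]
    simp

lemma ordAt_support_finite {f : RatFunc k} (hf : f ≠ 0) : {a | ordAt a f ≠ 0}.Finite := by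
  classical
  exact Set.Finite.subset (Set.Finite.insert _ (Set.Finite.image _ (Finset.finite_toSet _)))
    (ordAt_support_subset hf)

lemma sum_rootMultiplicity [IsAlgClosed k] [DecidableEq k] (p : k[X]) (S : Finset k)
    (hS : p.roots.toFinset ⊆ S) : ∑ a ∈ S, (p.rootMultiplicity a : ℤ) = p.natDegree := by
  have h1 : ∑ a ∈ S, (p.rootMultiplicity a : ℤ) =
      ∑ a ∈ p.roots.toFinset, (p.rootMultiplicity a : ℤ) := by
    symm
    apply Finset.sum_subset hS
    intro a _ ha
    rw [← count_roots, Multiset.count_eq_zero_of_notMem (by simpa using ha)]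
    simp
  rw [h1]
  have h2 : ∑ a ∈ p.roots.toFinset, p.rootMultiplicity a = p.natDegree := by
    simp only [← count_roots]
    rw [Multiset.toFinset_sum_count_eq]
    exact (splits_iff_card_roots.mp (IsAlgClosed.splits p))
  exact_mod_cast h2

/-- The product formula on the projective line. -/
lemma finsum_ordAt [IsAlgClosed k] {f : RatFunc k} (hf : f ≠ 0) : ∑ᶠ a, ordAt a f = 0 := by
  classical
  set S : Finset k := f.num.roots.toFinset ∪ f.denom.roots.toFinset with hS
  have h1 : ∑ᶠ a, ordAt a f = ∑ a ∈ insert none (S.map Function.Embedding.some), ordAt a f := by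
    apply finsum_eq_sum_of_support_subset
    intro a ha
    have := ordAt_support_subset hf ha
    simpa [hS] using this
  rw [h1, Finset.sum_insert (by simp), Finset.sum_map]
  simp only [Function.Embedding.some_apply, ordAt]
  rw [Finset.sum_sub_distrib, sum_rootMultiplicity _ S (by rw [hS]; exact Finset.subset_union_left),
    sum_rootMultiplicity _ S (by rw [hS]; exact Finset.subset_union_right), RatFunc.intDegree]
  ring

end Pool.Agent.Helper38.Scroll
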