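import Pool.Agent.Helper38.Scroll.P9

/-!
# Very ampleness
-/

set_option linter.unusedSectionVars false

namespace Pool.Agent.Helper38.Scroll

open Polynomial Matrix Module

section

variable {k K : Type} [Field k] [Field K] [Algebra (RatFunc k) K] [Algebra k K]
  [IsScalarTower k (RatFunc k) K] {n : ℕ}

section eval

variable {R : Type} [CommRing R] [Algebra k R] {a : Option k} (θ : regRing k K a →ₐ[k] R)
  (ℓ : Fin n → R)

/-- The vectors on which the functional `ℓ` vanishes. -/
noncomputable def evalKer : Submodule (regRing k K a) (Fin n → regRing k K a) where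
  carrier := {v | ∑ i, ℓ i * θ (v i) = 0}
  add_mem' := by
    intro v w hv hw
    simp only [Set.mem_ofPred_eq, Pi.add_apply, map_add, mul_add, Finset.sum_add_distrib] at *
    rw [hv, hw, add_zero]
  zero_mem' := by simp
  smul_mem' := by
    intro c v hv
    simp only [Set.mem_ofPred_eq, Pi.smul_apply, smul_eq_mul, map_mul] at *
    have : ∑ i, ℓ i * (θ c * θ (v i)) = θ c * ∑ i, ℓ i * θ (v i) := by
      rw [Finset.mul_sum]
      exact Finset.sum_congr rfl fun i _ => by ring
    rw [this, hv, mul_zero]

lemma mem_evalKer {v : Fin n → regRing k K a} :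
    v ∈ evalKer θ ℓ ↔ ∑ i, ℓ i * θ (v i) = 0 := Iff.rfl

/-- The value of a symmetric matrix at an `R`-valued point. -/
noncomputable def quadVal (T : Matrix (Fin n) (Fin n) (regRing k K a)) : R := ℓ ⬝ᵥ (T.map θ *ᵥ ℓ)

lemma quadVal_add (T T' : Matrix (Fin n) (Fin n) (regRing k K a)) :
    quadVal θ ℓ (T + T') = quadVal θ ℓ T + quadVal θ ℓ T' := by
  unfold quadVal
  have : (T + T').map θ = T.map θ + T'.map θ := by ext i j; simp
  rw [this, add_mulVec, dotProduct_add]

lemma quadVal_smul (c : regRing k K a) (T : Matrix (Fin n) (Fin n) (regRing k K a)) :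
    quadVal θ ℓ (c • T) = θ c * quadVal θ ℓ T := by
  unfold quadVal
  have : (c • T).map θ = θ c • T.map θ := by ext i j; simp
  rw [this, smul_mulVec, dotProduct_smul, smul_eq_mul]

lemma quadVal_vecMulVec (v y : Fin n → regRing k K a) :
    quadVal θ ℓ (vecMulVec v y) = (∑ i, ℓ i * θ (v i)) * (∑ i, ℓ i * θ (y i)) := by
  unfold quadVal
  simp only [dotProduct, mulVec, Matrix.map_apply, vecMulVec_apply, map_mul]
  rw [Finset.sum_mul_sum]
  apply Finset.sum_congr rfl
  intro i _
  rw [Finset.mul_sum]
  apply Finset.sum_congr rfl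
  intro j _
  ring

lemma quadVal_J {T : Matrix (Fin n) (Fin n) (regRing k K a)} {Λ : Submodule _ _}
    (hΛ : Λ ≤ evalKer θ ℓ) (hT : T ∈ Jmod Λ) :
    quadVal θ ℓ T = 0 := by
  induction hT using Submodule.span_induction with
  | mem X hX =>
    obtain ⟨v, hv, y, rfl | rfl⟩ := hX
    · rw [quadVal_vecMulVec, (mem_evalKer θ ℓ).mp (hΛ hv), zero_mul]
    · rw [quadVal_vecMulVec, (mem_evalKer θ ℓ).mp (hΛ hv), mul_zero]
  | zero => simp [quadVal]
  | add X Y _ _ hX hY => rw [quadVal_add, hX, hY, add_zero]
  | smul c X _ hX => rw [quadVal_smul, hX, mul_zero]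

lemma evalKer_codim [FiniteDimensional k R] {c : ℕ} (hc : finrank k R ≤ c) :
    CodimLE k (Set.univ : Set (Fin n → regRing k K a)) (evalKer θ ℓ) c := by
  intro ι _ v _ hind
  refine le_trans ?_ hc
  -- the linear map
  let φ : (ι → k) →ₗ[k] R :=
    { toFun := fun g => ∑ i, ℓ i * θ ((∑ x, g x • v x) i)
      map_add' := by
        intro g h
        rw [← Finset.sum_add_distrib]
        apply Finset.sum_congr rfl
        intro i _
        rw [← mul_add, ← map_add]
        congr 2
        simp only [Pi.add_apply, add_smul, Finset.sum_add_distrib]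
      map_smul' := by
        intro t g
        rw [RingHom.id_apply, Finset.smul_sum]
        apply Finset.sum_congr rfl
        intro i _
        rw [← mul_smul_comm, ← map_smul]
        congr 2
        simp only [Pi.smul_apply, smul_eq_mul, mul_smul, ← Finset.smul_sum] }
  have hφ : Function.Injective φ := by
    rw [injective_iff_map_eq_zero]
    intro g hg
    exact hind g hg
  have := LinearMap.finrank_le_finrank_of_injective hφ
  rwa [Module.finrank_fintype_fun_eq_card] at this

/-- The uniformizer in the semilocal ring. -/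
noncomputable def unifB (a : Option k) : regRing k K a :=
  algebraMap (localRing a) (regRing k K a) ⟨unifAt a, unifAt_mem a⟩

lemma evalKer_absorb {m : ℕ} (hm : θ (unifB a) ^ m = 0) (v : Fin n → regRing k K a) :
    ∃ m : ℕ, (⟨_, pow_mem (unifAt_mem a) m⟩ : localRing a) • v ∈ evalKer θ ℓ := by
  refine ⟨m, ?_⟩
  rw [mem_evalKer]
  apply Finset.sum_eq_zero
  intro i _
  have h1 : ((⟨_, pow_mem (unifAt_mem a) m⟩ : localRing a) • v) i = unifB a ^ m * v i := by
    apply Subtype.ext
    change unifAt a ^ m • (v i : K) = ((unifB a : regRing k K a) : K) ^ m * (v i : K)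
    have h2 : ((unifB a : regRing k K a) : K) = algebraMap (RatFunc k) K (unifAt a) := rfl
    rw [h2, ← map_pow, Algebra.smul_def]
  rw [h1, map_mul, map_pow, hm, zero_mul, mul_zero]

lemma hom_unifB (χ : regRing k K a →ₐ[k] k) : χ (unifB a) = 0 := by
  by_contra hne
  set c := χ (unifB a) with hc
  have h1 : (unifAt a - algebraMap k (RatFunc k) c) ∈ localRing a :=
    Subalgebra.sub_mem _ (unifAt_mem a) ((localRing a).algebraMap_mem c)
  have h2 := ordAt_const_add (a := a) (neg_ne_zero.mpr hne) (t := unifAt a)
    (Or.inr (by rw [ordAt_unifAt]))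
  have h3 : algebraMap k (RatFunc k) (-c) + unifAt a = unifAt a - algebraMap k (RatFunc k) c := by
    rw [map_neg]; ring
  rw [h3] at h2
  push Not at h2
  have h4 : IsUnit (⟨_, h1⟩ : localRing a) := by
    apply isUnit_localRing h2.1
    have := (mem_localRing_of_ne h2.1).mp h1
    have := h2.2
    change ordAt a (unifAt a - algebraMap k (RatFunc k) c) = 0
    omega
  have h5 : χ (algebraMap (localRing a) (regRing k K a) ⟨_, h1⟩) = 0 := by
    have h6 : algebraMap (localRing a) (regRing k K a) ⟨_, h1⟩ =
        unifB a - algebraMap k (regRing k K a) c := by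
      apply Subtype.ext
      change algebraMap (RatFunc k) K (unifAt a - algebraMap k (RatFunc k) c) =
        algebraMap (RatFunc k) K (unifAt a) - algebraMap k K c
      rw [map_sub, ← IsScalarTower.algebraMap_apply]
    rw [h6, map_sub, ← hc, AlgHom.commutes]
    simp
  have h7 : IsUnit (χ (algebraMap (localRing a) (regRing k K a) ⟨_, h1⟩)) :=
    (h4.map _).map χ
  rw [h5] at h7
  exact not_isUnit_zero h7

end eval

omit [Field K] [Algebra (RatFunc k) K] [Algebra k K] [IsScalarTower k (RatFunc k) K] in
lemma codimLE_self' (V : Type) [AddCommGroup V] [Module k V] (N : Submodule k V) :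
    CodimLE k (N : Set V) N 0 := by
  intro ι _ v hv hind
  rw [Nat.le_zero, Fintype.card_eq_zero_iff]
  by_contra hne
  rw [not_isEmpty_iff] at hne
  obtain ⟨i⟩ := hne
  have h1 := hind (fun _ => 1) (N.sum_mem fun i _ => N.smul_mem _ (hv i))
  exact one_ne_zero (congrFun h1 i)

/-- No conditions. -/
noncomputable def Conditions.top (k K : Type) [Field k] [Field K] [Algebra (RatFunc k) K]
    [Algebra k K] [IsScalarTower k (RatFunc k) K] (n : ℕ) : Conditions k K n where
  Λ := fun _ => ⊤
  c := fun _ => 0
  fin := by simp
  cfin := by simp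
  absorb := fun a v => ⟨0, trivial⟩
  codim := fun a => codimLE_self' _ (⊤ : Submodule k (Fin n → regRing k K a))

open Classical in
/-- Impose a condition at `a`. -/
noncomputable def Conditions.upd (Q : Conditions k K n) (a : Option k)
    (Λ₀ : Submodule (regRing k K a) (Fin n → regRing k K a)) (c₀ : ℕ)
    (habs : ∀ v : Fin n → regRing k K a, ∃ m : ℕ,
      (⟨_, pow_mem (unifAt_mem a) m⟩ : localRing a) • v ∈ Λ₀)
    (hcod : CodimLE k (Set.univ : Set (Fin n → regRing k K a)) Λ₀ c₀) : Conditions k K n where
  Λ := Function.update Q.Λ a Λ₀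
  c := Function.update Q.c a c₀
  fin := by
    refine (Q.fin.insert a).subset ?_
    intro b hb
    by_cases hba : b = a
    · left; exact hba
    · right
      simp only [Set.mem_ofPred_eq] at hb ⊢
      rwa [Function.update_of_ne hba] at hb
  cfin := by
    refine (Q.cfin.insert a).subset ?_
    intro b hb
    by_cases hba : b = a
    · left; exact hba
    · right
      simp only [Set.mem_ofPred_eq] at hb ⊢
      rwa [Function.update_of_ne hba] at hb
  absorb := by
    intro b v
    by_cases hba : b = a
    · subst hba
      rw [Function.update_self]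
      exact habs v
    · rw [Function.update_of_ne hba]
      exact Q.absorb b v
  codim := by
    intro b
    by_cases hba : b = a
    · subst hba
      rw [Function.update_self, Function.update_self]
      exact hcod
    · rw [Function.update_of_ne hba, Function.update_of_ne hba]
      exact Q.codim b

end

end Pool.Agent.Helper38.Scroll
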