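import Pool.Agent.Helper38.Scroll.P10

/-!
# Very ampleness: the theorem
-/

set_option linter.unusedSectionVars false

namespace Pool.Agent.Helper38.Scroll

open Polynomial Matrix Module

section

variable {k K : Type} [Field k] [Field K] [Algebra (RatFunc k) K] [Algebra k K]
  [IsScalarTower k (RatFunc k) K] {n : ℕ}

lemma value_eq_quadVal {g : Option k → Matrix (Fin n) (Fin n) K} {w : Option k → K}
    (s : GlobalSection g w) {R : Type} [CommRing R] [Algebra k R] {a : Option k}
    (θ : regRing k K a →ₐ[k] R) (ℓ : Fin n → R) : s.value θ ℓ = quadVal θ ℓ (s.loc a) := rfl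

lemma quadVal_of_sub {R : Type} [CommRing R] [Algebra k R] {a : Option k}
    (θ : regRing k K a →ₐ[k] R) (ℓ : Fin n → R) {Λ : Submodule _ _}
    (hΛ : Λ ≤ evalKer θ ℓ) {S T : Matrix (Fin n) (Fin n) (regRing k K a)}
    (h : S - T ∈ Jmod Λ) : quadVal θ ℓ S = quadVal θ ℓ T := by
  have h1 := quadVal_J θ ℓ hΛ h
  have h2 : S = T + (S - T) := by abel
  rw [h2, quadVal_add, h1, add_zero]

/-- The constant vector attached to `e : k^n`. -/
noncomputable def cvec (a : Option k) (e : Fin n → k) : Fin n → regRing k K a :=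
  fun i => algebraMap k (regRing k K a) (e i)

lemma sum_cvec {R : Type} [CommRing R] [Algebra k R] {a : Option k}
    (θ : regRing k K a →ₐ[k] R) (ℓ : Fin n → R) (e : Fin n → k) :
    ∑ i, ℓ i * θ (cvec a e i) = ∑ i, e i • ℓ i := by
  apply Finset.sum_congr rfl
  intro i _
  rw [cvec, AlgHom.commutes, Algebra.smul_def, mul_comm]

lemma vecMulVec_isSymm {R : Type} [CommRing R] (v : Fin n → R) : (vecMulVec v v).IsSymm := by
  ext i j
  simp [vecMulVec_apply, mul_comm]

lemma vecMulVec_add_isSymm {R : Type} [CommRing R] (v y : Fin n → R) :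
    (vecMulVec v y + vecMulVec y v).IsSymm := by
  ext i j
  simp only [Matrix.transpose_apply, Matrix.add_apply, vecMulVec_apply]
  ring

lemma sum_single (i : Fin n) {M : Type} [AddCommMonoid M] [Module k M] (ℓ : Fin n → M) :
    ∑ j, (Pi.single i (1 : k) : Fin n → k) j • ℓ j = ℓ i := by
  rw [Finset.sum_eq_single i]
  · simp
  · intro j _ hj
    rw [Pi.single_eq_of_ne hj, zero_smul]
  · simp

lemma sum_two (i j : Fin n) (α β : k) {M : Type} [AddCommGroup M] [Module k M] (ℓ : Fin n → M) :
    ∑ l, (α • (Pi.single j (1 : k) : Fin n → k) - β • (Pi.single i (1 : k) : Fin n → k)) l • ℓ l =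
      α • ℓ j - β • ℓ i := by
  simp only [Pi.sub_apply, Pi.smul_apply, sub_smul, Finset.sum_sub_distrib, smul_assoc,
    ← Finset.smul_sum]
  rw [sum_single, sum_single]

variable [IsAlgClosed k] [CharZero k] [FiniteDimensional (RatFunc k) K]

section cond

variable {R : Type} [CommRing R] [Algebra k R] [FiniteDimensional k R] {a : Option k}
  (θ : regRing k K a →ₐ[k] R) (ℓ : Fin n → R)

/-- The condition of vanishing at an `R`-valued point. -/
noncomputable def condAt (Q : Conditions k K n) (m c : ℕ) (hm : θ (unifB a) ^ m = 0)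
    (hc : finrank k R ≤ c) : Conditions k K n :=
  Q.upd a (evalKer θ ℓ) c (evalKer_absorb θ ℓ hm) (evalKer_codim θ ℓ hc)

lemma condAt_Λ (Q : Conditions k K n) {m c : ℕ} (hm : θ (unifB a) ^ m = 0)
    (hc : finrank k R ≤ c) : (condAt θ ℓ Q m c hm hc).Λ a = evalKer θ ℓ := by
  classical
  simp [condAt, Conditions.upd]

lemma condAt_Λ_ne (Q : Conditions k K n) {m c : ℕ} (hm : θ (unifB a) ^ m = 0)
    (hc : finrank k R ≤ c) {b : Option k} (hb : b ≠ a) :
    (condAt θ ℓ Q m c hm hc).Λ b = Q.Λ b := by
  classical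
  simp [condAt, Conditions.upd, hb]

lemma condAt_c (Q : Conditions k K n) {m c : ℕ} (hm : θ (unifB a) ^ m = 0)
    (hc : finrank k R ≤ c) : (condAt θ ℓ Q m c hm hc).c a = c := by
  classical
  simp [condAt, Conditions.upd]

lemma condAt_c_ne (Q : Conditions k K n) {m c : ℕ} (hm : θ (unifB a) ^ m = 0)
    (hc : finrank k R ≤ c) {b : Option k} (hb : b ≠ a) :
    (condAt θ ℓ Q m c hm hc).c b = Q.c b := by
  classical
  simp [condAt, Conditions.upd, hb]

lemma condAt_top_sum {m c : ℕ} (hm : θ (unifB a) ^ m = 0)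
    (hc : finrank k R ≤ c) : ∑ᶠ b, (condAt θ ℓ (Conditions.top k K n) m c hm hc).c b = c := by
  rw [finsum_eq_single _ a]
  · exact condAt_c _ _ _ hm hc
  · intro b hb
    rw [condAt_c_ne _ _ _ hm hc hb]
    rfl

end cond

/-- One `R`-valued point: sections with a prescribed leading term. -/
lemma exists_section_one {g : Option k → Matrix (Fin n) (Fin n) K} (hg : IsBundle g)
    {w : Option k → K} (hw : ∀ a, IsCanonicalGenerator a (w a)) (hpos : HasPositiveQuotients g)
    {R : Type} [CommRing R] [Algebra k R] [FiniteDimensional k R] {a : Option k}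
    (θ : regRing k K a →ₐ[k] R) (ℓ : Fin n → R) {m : ℕ} (hm : θ (unifB a) ^ m = 0)
    (hc : finrank k R ≤ 2) {T : Matrix (Fin n) (Fin n) (regRing k K a)} (hT : T.IsSymm) :
    ∃ s : GlobalSection g w, s.loc a - T ∈ Jmod (evalKer θ ℓ) := by
  obtain ⟨s, hs, -⟩ := exists_section (condAt θ ℓ (Conditions.top k K n) m 2 hm hc) hg hw hpos
    (condAt_top_sum θ ℓ hm hc).le a T hT
  rw [condAt_Λ] at hs
  exact ⟨s, hs⟩

/-- Two points in different fibres over the line. -/
lemma exists_section_two {g : Option k → Matrix (Fin n) (Fin n) K} (hg : IsBundle g)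
    {w : Option k → K} (hw : ∀ a, IsCanonicalGenerator a (w a)) (hpos : HasPositiveQuotients g)
    {a b : Option k} (hab : b ≠ a) (χ : regRing k K a →ₐ[k] k) (ℓ : Fin n → k)
    (χ' : regRing k K b →ₐ[k] k) (ℓ' : Fin n → k)
    {T : Matrix (Fin n) (Fin n) (regRing k K b)} (hT : T.IsSymm) :
    ∃ s : GlobalSection g w, s.loc a ∈ Jmod (evalKer χ ℓ) ∧
      s.loc b - T ∈ Jmod (evalKer χ' ℓ') := by
  classical
  have h1 : finrank k k ≤ 1 := (finrank_self k).le
  have hu : χ (unifB a) ^ 1 = 0 := by rw [hom_unifB, pow_one]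
  have hu' : χ' (unifB b) ^ 1 = 0 := by rw [hom_unifB, pow_one]
  set Q := condAt χ' ℓ' (condAt χ ℓ (Conditions.top k K n) 1 1 hu h1) 1 1 hu' h1 with hQ
  have hsum : ∑ᶠ x, Q.c x ≤ 2 := by
    have h2 : ∑ᶠ x, Q.c x = ∑ x ∈ {a, b}, Q.c x := by
      apply finsum_eq_sum_of_support_subset
      intro x hx
      by_contra hcon
      simp only [Finset.coe_insert, Finset.coe_singleton, Set.mem_insert_iff,
        Set.mem_singleton_iff, not_or] at hcon
      apply hx
      rw [hQ, condAt_c_ne _ _ _ _ _ hcon.2, condAt_c_ne _ _ _ _ _ hcon.1]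
      rfl
    rw [h2, Finset.sum_pair hab.symm, hQ, condAt_c, condAt_c_ne _ _ _ _ _ hab.symm, condAt_c]
  obtain ⟨s, hs, hs'⟩ := exists_section Q hg hw hpos hsum b T hT
  refine ⟨s, ?_, ?_⟩
  · have h2 := hs' a hab.symm
    rw [hQ, condAt_Λ_ne _ _ _ _ _ hab.symm, condAt_Λ] at h2
    exact h2
  · rw [hQ, condAt_Λ] at hs
    exact hs

lemma exists_coord_ne (x : Projectivization k (Fin n → k)) : ∃ i, x.rep i ≠ 0 := by
  by_contra hcon
  push Not at hcon
  exact x.rep_nonzero (funext hcon)

/-- **Fujita's very ampleness for scrolls over curves.** -/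
theorem veryAmple {g : Option k → Matrix (Fin n) (Fin n) K} (hg : IsBundle g)
    {w : Option k → K} (hw : ∀ a, IsCanonicalGenerator a (w a)) (hpos : HasPositiveQuotients g) :
    IsVeryAmple g w where
  nonvanishing := by
    rintro ⟨a, χ⟩ x
    obtain ⟨i, hi⟩ := exists_coord_ne x
    have hu : χ (unifB a) ^ 1 = 0 := by rw [hom_unifB, pow_one]
    obtain ⟨s, hs⟩ := exists_section_one hg hw hpos χ x.rep hu
      (by rw [finrank_self]; norm_num)
      (vecMulVec_isSymm (cvec a (Pi.single i 1)))
    refine ⟨s, ?_⟩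
    rw [value_eq_quadVal]
    change quadVal χ x.rep (s.loc a) ≠ 0
    rw [quadVal_of_sub χ x.rep le_rfl hs, quadVal_vecMulVec, sum_cvec, sum_single]
    exact mul_ne_zero hi hi
  separates_points := by
    rintro ⟨a, χ⟩ ⟨b, χ'⟩ x x' hne
    by_cases hab : b = a
    · subst hab
      set R := k × k
      set θ : regRing k K b →ₐ[k] (k × k) := χ.prod χ' with hθ
      set ℓ : Fin n → k × k := fun i => (x.rep i, x'.rep i) with hℓ
      have hu : θ (unifB b) ^ 1 = 0 := by
        rw [pow_one, hθ, AlgHom.prod_apply, hom_unifB, hom_unifB]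
        rfl
      have hle : evalKer θ ℓ ≤ evalKer χ x.rep := by
        intro v hv
        rw [mem_evalKer] at hv ⊢
        have := congrArg Prod.fst hv
        rw [Prod.fst_sum] at this
        exact this
      have hle' : evalKer θ ℓ ≤ evalKer χ' x'.rep := by
        intro v hv
        rw [mem_evalKer] at hv ⊢
        have := congrArg Prod.snd hv
        rw [Prod.snd_sum] at this
        exact this
      have hfr : finrank k (k × k) ≤ 2 := by
        rw [Module.finrank_prod, finrank_self]
      by_cases hχ : χ = χ'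
      · subst hχ
        have hx : x ≠ x' := by
          rintro rfl
          exact hne rfl
        obtain ⟨i, hi⟩ := exists_coord_ne x
        have hj : ∃ j, x.rep i * x'.rep j ≠ x.rep j * x'.rep i := by
          by_contra hcon
          push Not at hcon
          apply hx
          rw [← x.mk_rep, ← x'.mk_rep]
          rw [Projectivization.mk_eq_mk_iff']
          have hne' : x'.rep i ≠ 0 := by
            intro h0
            apply x'.rep_nonzero
            funext j
            have h1 := hcon j
            rw [h0, mul_zero] at h1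
            exact (mul_eq_zero.mp h1).resolve_left hi
          refine ⟨x.rep i / x'.rep i, ?_⟩
          funext j
          rw [Pi.smul_apply, smul_eq_mul, div_mul_eq_mul_div, hcon j, mul_div_assoc,
            div_self hne', mul_one]
        obtain ⟨j, hj⟩ := hj
        obtain ⟨s, hs⟩ := exists_section_one hg hw hpos θ ℓ hu hfr
          (vecMulVec_isSymm (cvec b (x.rep i • Pi.single j (1 : k) - x.rep j • Pi.single i (1 : k))))
        refine ⟨s, ?_, ?_⟩
        · rw [value_eq_quadVal]
          change quadVal χ x.rep (s.loc b) = 0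
          rw [quadVal_of_sub χ x.rep hle hs, quadVal_vecMulVec, sum_cvec, sum_two]
          simp only [smul_eq_mul]
          ring
        · rw [value_eq_quadVal]
          change quadVal χ x'.rep (s.loc b) ≠ 0
          rw [quadVal_of_sub χ x'.rep hle' hs, quadVal_vecMulVec, sum_cvec, sum_two]
          simp only [smul_eq_mul]
          exact mul_ne_zero (sub_ne_zero.mpr hj) (sub_ne_zero.mpr hj)
      · obtain ⟨f, hf⟩ : ∃ f, χ f ≠ χ' f := by
          by_contra hcon
          push Not at hcon
          exact hχ (AlgHom.ext hcon)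
        obtain ⟨i, hi⟩ := exists_coord_ne x'
        obtain ⟨s, hs⟩ := exists_section_one hg hw hpos θ ℓ hu hfr
          (T := (f - algebraMap k (regRing k K b) (χ f)) •
            vecMulVec (cvec b (Pi.single i 1)) (cvec b (Pi.single i 1)))
          ((vecMulVec_isSymm _).smul _)
        refine ⟨s, ?_, ?_⟩
        · rw [value_eq_quadVal]
          change quadVal χ x.rep (s.loc b) = 0
          rw [quadVal_of_sub χ x.rep hle hs, quadVal_smul, map_sub, AlgHom.commutes]
          simp
        · rw [value_eq_quadVal]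
          change quadVal χ' x'.rep (s.loc b) ≠ 0
          rw [quadVal_of_sub χ' x'.rep hle' hs, quadVal_smul, map_sub, AlgHom.commutes,
            quadVal_vecMulVec, sum_cvec, sum_single]
          refine mul_ne_zero (sub_ne_zero.mpr ?_) (mul_ne_zero hi hi)
          exact fun h => hf h.symm
    · obtain ⟨i, hi⟩ := exists_coord_ne x'
      obtain ⟨s, hs, hs'⟩ := exists_section_two hg hw hpos hab χ x.rep χ' x'.rep
        (vecMulVec_isSymm (cvec b (Pi.single i 1)))
      refine ⟨s, ?_, ?_⟩
      · rw [value_eq_quadVal]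
        exact quadVal_J χ x.rep le_rfl hs
      · rw [value_eq_quadVal]
        change quadVal χ' x'.rep (s.loc b) ≠ 0
        rw [quadVal_of_sub χ' x'.rep le_rfl hs', quadVal_vecMulVec, sum_cvec, sum_single]
        exact mul_ne_zero hi hi
  separates_tangents := by
    intro a θ ℓ hℓ hne
    have hfin : FiniteDimensional k (DualNumber k) :=
      inferInstanceAs (FiniteDimensional k (k × k))
    have hfr : finrank k (DualNumber k) ≤ 2 := by
      have h1 : finrank k (DualNumber k) = finrank k (k × k) := rfl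
      rw [h1, Module.finrank_prod, finrank_self]
    have hu1 : (θ (unifB a)).fst = 0 :=
      hom_unifB ((TrivSqZeroExt.fstHom k k k).comp θ)
    have hu : θ (unifB a) ^ 2 = 0 := by
      rw [pow_two]
      ext
      · rw [TrivSqZeroExt.fst_mul, hu1, mul_zero]; rfl
      · rw [TrivSqZeroExt.snd_mul, hu1]; simp
    obtain ⟨i, hi⟩ := hℓ
    by_cases hθ : ∀ b, (θ b).snd = 0
    · have hj : ∃ j, (ℓ i).fst * (ℓ j).snd ≠ (ℓ j).fst * (ℓ i).snd := by
        by_contra hcon
        push Not at hcon
        apply hne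
        refine ⟨hθ, (ℓ i).snd / (ℓ i).fst, fun j => ?_⟩
        rw [div_mul_eq_mul_div, eq_div_iff hi]
        linear_combination hcon j
      obtain ⟨j, hj⟩ := hj
      set e : Fin n → k := (ℓ i).fst • Pi.single j (1 : k) - (ℓ j).fst • Pi.single i (1 : k)
        with he
      obtain ⟨s, hs⟩ := exists_section_one hg hw hpos θ ℓ hu hfr
        (T := vecMulVec (cvec a e) (cvec a (Pi.single i 1)) +
          vecMulVec (cvec a (Pi.single i 1)) (cvec a e)) (vecMulVec_add_isSymm _ _)
      have hval : s.value θ ℓ = 2 * (((ℓ i).fst • ℓ j - (ℓ j).fst • ℓ i) * ℓ i) := by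
        rw [value_eq_quadVal, quadVal_of_sub θ ℓ le_rfl hs, quadVal_add, quadVal_vecMulVec,
          quadVal_vecMulVec, sum_cvec, sum_cvec, sum_single, he, sum_two]
        ring
      have h2 : (2 : DualNumber k) = TrivSqZeroExt.inl 2 := rfl
      refine ⟨s, ?_, ?_⟩
      · rw [hval]
        simp only [TrivSqZeroExt.fst_mul, TrivSqZeroExt.fst_sub, TrivSqZeroExt.fst_smul,
          smul_eq_mul]
        ring
      · rw [hval, h2]
        simp only [TrivSqZeroExt.snd_mul, TrivSqZeroExt.fst_mul, TrivSqZeroExt.fst_sub,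
          TrivSqZeroExt.fst_smul, TrivSqZeroExt.snd_sub, TrivSqZeroExt.snd_smul, smul_eq_mul,
          TrivSqZeroExt.fst_inl, TrivSqZeroExt.snd_inl, MulOpposite.smul_eq_mul_unop,
          MulOpposite.unop_op]
        have h3 : (2 : k) * (((ℓ i).fst * (ℓ j).snd - (ℓ j).fst * (ℓ i).snd) * (ℓ i).fst) ≠ 0 :=
          mul_ne_zero two_ne_zero (mul_ne_zero (sub_ne_zero.mpr hj) hi)
        intro h
        apply h3
        rw [← h]
        ring
    · push Not at hθ
      obtain ⟨f, hf⟩ := hθ
      obtain ⟨s, hs⟩ := exists_section_one hg hw hpos θ ℓ hu hfr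
          (T := (f - algebraMap k (regRing k K a) (θ f).fst) •
            vecMulVec (cvec a (Pi.single i 1)) (cvec a (Pi.single i 1)))
          ((vecMulVec_isSymm _).smul _)
      have hval : s.value θ ℓ = (θ f - algebraMap k (DualNumber k) (θ f).fst) * (ℓ i * ℓ i) := by
        rw [value_eq_quadVal, quadVal_of_sub θ ℓ le_rfl hs, quadVal_smul, quadVal_vecMulVec,
          sum_cvec, sum_single, map_sub, AlgHom.commutes]
      have h0 : algebraMap k (DualNumber k) (θ f).fst = TrivSqZeroExt.inl (θ f).fst := rfl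
      refine ⟨s, ?_, ?_⟩
      · rw [hval, h0]
        simp
      · rw [hval, h0]
        simp only [TrivSqZeroExt.snd_mul, TrivSqZeroExt.fst_mul, TrivSqZeroExt.fst_sub,
          TrivSqZeroExt.snd_sub, smul_eq_mul, TrivSqZeroExt.fst_inl, TrivSqZeroExt.snd_inl,
          MulOpposite.smul_eq_mul_unop, MulOpposite.unop_op, sub_self, zero_mul, sub_zero,
          zero_add]
        exact mul_ne_zero hf (mul_ne_zero hi hi)

end

end Pool.Agent.Helper38.Scroll
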