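import Pool.Agent.Helper38.Scroll.P11

/-!
# Existence of canonical generators, and line bundles
-/

set_option linter.unusedSectionVars false

namespace Pool.Agent.Helper38.Scroll

open Polynomial Matrix Module nonZeroDivisors

section

variable {k K : Type} [Field k] [Field K] [Algebra (RatFunc k) K] [Algebra k K]
  [IsScalarTower k (RatFunc k) K] [IsAlgClosed k] [CharZero k] [FiniteDimensional (RatFunc k) K]

/-- Canonical generators exist. -/
theorem exists_canonicalGenerator (a : Option k) : ∃ w : K, IsCanonicalGenerator a w := by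
  set D := FractionalIdeal.dual (localRing a) (RatFunc k)
    (1 : FractionalIdeal (regRing k K a)⁰ K) with hD
  have h10 : (1 : FractionalIdeal (regRing k K a)⁰ K) ≠ 0 := one_ne_zero
  have hD0 : D ≠ 0 := FractionalIdeal.dual_ne_zero _ _ h10
  obtain ⟨d, hd⟩ := (FractionalIdeal.isPrincipal D).principal
  have hmem : ∀ x : K, x ∈ D ↔ ∀ b ∈ regRing k K a,
      Algebra.trace (RatFunc k) K (x * b) ∈ localRing a := by
    intro x
    rw [hD, FractionalIdeal.mem_dual h10]
    constructor
    · intro h b hb
      have h1 := h b ((FractionalIdeal.mem_one_iff _).mpr ⟨⟨b, hb⟩, rfl⟩)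
      rw [Algebra.traceForm_apply] at h1
      obtain ⟨y, hy⟩ := h1
      rw [← hy]
      exact y.2
    · intro h b hb
      obtain ⟨b', rfl⟩ := (FractionalIdeal.mem_one_iff _).mp hb
      rw [Algebra.traceForm_apply]
      exact ⟨⟨_, h _ b'.2⟩, rfl⟩
  have hmem' : ∀ x : K, x ∈ D ↔ ∃ b ∈ regRing k K a, x = d * b := by
    intro x
    have h1 : x ∈ D ↔ x ∈ (D : Submodule (regRing k K a) K) := Iff.rfl
    rw [h1, hd, Submodule.mem_span_singleton]
    constructor
    · rintro ⟨b, rfl⟩
      exact ⟨b, b.2, mul_comm _ _⟩
    · rintro ⟨b, hb, rfl⟩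
      exact ⟨⟨b, hb⟩, mul_comm _ _⟩
  have hd0 : d ≠ 0 := by
    rintro rfl
    apply hD0
    rw [FractionalIdeal.eq_zero_iff]
    intro x hx
    obtain ⟨b, -, rfl⟩ := (hmem' x).mp hx
    rw [zero_mul]
  have ht0 : twist a ≠ 0 := by
    cases a with
    | none => exact pow_ne_zero _ RatFunc.X_ne_zero
    | some a => exact one_ne_zero
  have ht : algebraMap (RatFunc k) K (twist a) ≠ 0 := by
    rw [ne_eq, map_eq_zero]
    exact ht0
  refine ⟨d / algebraMap (RatFunc k) K (twist a), div_ne_zero hd0 ht, fun f => ?_⟩
  have h1 : (∀ b ∈ regRing k K a, twist a * Algebra.trace (RatFunc k) K (f * b) ∈ localRing a) ↔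
      algebraMap (RatFunc k) K (twist a) * f ∈ D := by
    rw [hmem]
    apply forall₂_congr
    intro b _
    rw [mul_assoc, ← Algebra.smul_def, map_smul, smul_eq_mul]
  rw [h1, hmem']
  apply exists_congr
  intro b
  apply and_congr_right
  intro _
  constructor
  · intro h
    rw [div_mul_eq_mul_div, eq_div_iff ht, ← h, mul_comm]
  · rintro rfl
    field_simp

/-- For line bundles positivity of the quotients is positivity of the degree. -/
theorem hasPositiveQuotients_line {g : Option k → Matrix (Fin 1) (Fin 1) K} (hg : IsBundle g) :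
    HasPositiveQuotients g ↔ 0 < degree g := by
  constructor
  · intro h
    exact h 1 one_pos 1 (by rw [Matrix.rank_one, Fintype.card_fin]) g (isQuotientBundle_self hg)
  · intro hdeg r hr A hA h hh
    have hr1 : r = 1 := by
      have := A.rank_le_width
      omega
    subst hr1
    have hA0 : A.det ≠ 0 := by
      intro h0
      have hA' : A = 0 := by
        ext i j
        rw [Matrix.det_unique] at h0
        rw [Subsingleton.elim i default, Subsingleton.elim j default, h0]
        rfl
      rw [hA', Matrix.rank_zero] at hA
      exact zero_ne_one hA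
    have h1 : ∀ a, ordOver a (h a).det = ordOver a A.det + ordOver a (g a).det := by
      intro a
      have h2 : lattice a (h a) = lattice a (A * g a) := by
        rw [(hh a).2, lattice_map, lattice_eq_range]
      have hne : (A * g a).det ≠ 0 := by
        rw [Matrix.det_mul]; exact mul_ne_zero hA0 (hg.1 a)
      rw [ordOver_det_eq a hne (hh a).1 h2, Matrix.det_mul, ordOver_mul a hA0 (hg.1 a)]
    have hfA : (Function.support fun a : Option k => ordOver a A.det).Finite :=
      ordAt_support_finite (norm_ne_zero' hA0)
    have hfg : (Function.support fun a : Option k => ordOver a (g a).det).Finite :=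
      quotient_support_finite hg (by rw [Matrix.mul_one]) (isQuotientBundle_self hg)
    have h2 : degree h = degree g := by
      rw [degree, degree, finsum_congr h1, finsum_add_distrib hfA hfg]
      have h3 : ∑ᶠ a : Option k, ordOver a A.det = 0 := finsum_ordAt (norm_ne_zero' hA0)
      rw [h3, zero_add]
    rw [h2]
    exact hdeg

end

end Pool.Agent.Helper38.Scroll
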