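import Pool.Agent.Helper38.Scroll.P1

/-!
# Vector bundles on a smooth projective curve and their projectivizations: definitions

`k` is an algebraically closed field of characteristic zero and `K` a finite extension of `k(x)`,
i.e. the function field of a smooth projective curve `C` over `k` with a finite morphism
`x : C → ℙ¹`. The points of `ℙ¹` are the elements of `Option k`, `none` being the point at infinity;
`ordAt a f` is the order at `a` of the rational function `f`, and `localRing a` the local ring at
`a`, i.e. the ring of the rational functions `f` with `f = 0` or `ordAt a f ≥ 0`.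

A vector bundle `E` of rank `n` on `C` with a trivialization at the generic point is given by its
stalks along the fibres of `x`: these are free modules of rank `n` over the semilocal rings of `C`
over `a ∈ ℙ¹`, i.e. lattices in `K^n`; such a lattice is given by a frame, an invertible matrix
whose columns form a basis of the lattice.
-/

namespace Pool.Agent.Helper38.Scroll

open Matrix

namespace Curve

variable {k K : Type} [Field k] [Field K] [Algebra (RatFunc k) K]

/-- The function `f` on the curve is regular at all points over `a ∈ ℙ¹`, i.e. it is integral over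
the local ring at `a`. -/
def Regular (a : Option k) (f : K) : Prop := IsIntegral (localRing a) f

/-- The sum of the orders of `f` at all points of the curve over `a`, i.e. the order at `a` of the
norm of `f`. -/
noncomputable def ordOver (a : Option k) (f : K) : ℤ := ordAt a (Algebra.norm (RatFunc k) f)

/-- The lattice with frame `h`: the combinations of the columns of `h` with coefficients regular
over `a`. -/
def lattice {r : ℕ} (a : Option k) (h : Matrix (Fin r) (Fin r) K) : Set (Fin r → K) :=
  {v | ∃ c : Fin r → K, (∀ i, Regular a (c i)) ∧ h *ᵥ c = v}

/-- A vector bundle of rank `n` on the curve, given by frames `g a` of its stalks over all points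
`a` of the projective line: almost all stalks are trivial. -/
def IsBundle {n : ℕ} (g : Option k → Matrix (Fin n) (Fin n) K) : Prop :=
  (∀ a, (g a).det ≠ 0) ∧ {a | lattice a (g a) ≠ lattice a 1}.Finite

/-- The degree of the vector bundle with frames `h`. -/
noncomputable def degree {r : ℕ} (h : Option k → Matrix (Fin r) (Fin r) K) : ℤ :=
  -∑ᶠ a, ordOver a (h a).det

/-- `h` is a family of frames of the image of the bundle with frames `g` under the matrix `A`. -/
def IsQuotientBundle {r n : ℕ} (g : Option k → Matrix (Fin n) (Fin n) K)
    (A : Matrix (Fin r) (Fin n) K) (h : Option k → Matrix (Fin r) (Fin r) K) : Prop :=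
  ∀ a, (h a).det ≠ 0 ∧ lattice a (h a) = (fun v => A *ᵥ v) '' lattice a (g a)

/-- Every quotient bundle (of positive rank) has positive degree. This holds if `E` is ample, i.e.
if the tautological line bundle on `ℙ(E)` is ample (and conversely, by a theorem of Hartshorne). -/
def HasPositiveQuotients {n : ℕ} (g : Option k → Matrix (Fin n) (Fin n) K) : Prop :=
  ∀ r : ℕ, 0 < r → ∀ A : Matrix (Fin r) (Fin n) K, A.rank = r →
    ∀ h : Option k → Matrix (Fin r) (Fin r) K, IsQuotientBundle g A h → 0 < degree h

/-- The differential `f dx` is regular at the point `a` of the projective line if and only if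
`twist a * f` is a regular function at `a`. -/
noncomputable def twist : Option k → RatFunc k
  | none => RatFunc.X ^ 2
  | some _ => 1

/-- `w dx` is a generator of the differentials of the curve at all points over `a`: a differential
`f dx` is regular over `a` if and only if the traces of all `b f dx`, `b` regular over `a`, are
regular differentials at `a` (duality for the covering of the projective line by the curve), and
this holds if and only if `f` is a multiple of `w` by a function regular over `a`. -/
def IsCanonicalGenerator (a : Option k) (w : K) : Prop :=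
  w ≠ 0 ∧ ∀ f : K,
    (∀ b : K, Regular a b → twist a * Algebra.trace (RatFunc k) K (f * b) ∈ localRing a) ↔
      ∃ b : K, Regular a b ∧ f = w * b

/-- A global section of `Sym² E ⊗ K_C ⊗ det E`, `E` with frames `g`: over each `a` it is
`(Σ T_ij g_i g_j) ⊗ (w dx) ⊗ (g_1 ∧ ... ∧ g_n)` with a symmetric matrix `T` of functions regular
over `a`, where `g_1, ..., g_n` are the columns of the frame `g a`. -/
structure GlobalSection {n : ℕ} (g : Option k → Matrix (Fin n) (Fin n) K) (w : Option k → K) where
  /-- the rational section -/
  mat : Matrix (Fin n) (Fin n) K
  /-- its coordinates in the local frames -/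
  loc : Option k → Matrix (Fin n) (Fin n) K
  regular : ∀ a i j, Regular a (loc a i j)
  symm : ∀ a, (loc a).IsSymm
  eq : ∀ a, mat = (w a * (g a).det) • (g a * loc a * (g a)ᵀ)

variable (k K) [Algebra k K] [IsScalarTower k (RatFunc k) K]

/-- The ring of the functions on the curve regular at all points over `a`. -/
noncomputable def regularRing (a : Option k) : Subalgebra k K where
  carrier := {f | Regular a f}
  mul_mem' hf hg := IsIntegral.mul hf hg
  add_mem' hf hg := IsIntegral.add hf hg
  algebraMap_mem' c := by
    have h : algebraMap k K c = algebraMap (localRing a) K (algebraMap k (localRing a) c) := by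
      rw [IsScalarTower.algebraMap_apply k (RatFunc k) K]
      rfl
    rw [h]
    exact isIntegral_algebraMap

/-- The `R`-valued points of the curve over `a`. -/
abbrev PointOver (a : Option k) (R : Type) [CommRing R] [Algebra k R] : Type :=
  regularRing k K a →ₐ[k] R

/-- The closed points of the curve. -/
abbrev ClosedPoint : Type := Σ a : Option k, PointOver k K a k

variable {k K}

/-- The value of a section at the `R`-valued point of `ℙ(E)` given by an `R`-valued point `θ` of the
curve and the quotient `R^n → R` of the fibre of `E` with coordinates `ℓ`, in the given local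
frames. -/
noncomputable def GlobalSection.value {n : ℕ} {g : Option k → Matrix (Fin n) (Fin n) K}
    {w : Option k → K} (s : GlobalSection g w) {R : Type} [CommRing R] [Algebra k R] {a : Option k}
    (θ : PointOver k K a R) (ℓ : Fin n → R) : R :=
  ∑ i, ∑ j, ℓ i * θ ⟨s.loc a i j, s.regular a i j⟩ * ℓ j

/-- The sections of `O(2) ⊗ π^*(K_C ⊗ det E)` have no common zero on `ℙ(E)`; a closed point of
`ℙ(E)` is a closed point `p` of the curve and a one-dimensional quotient of the fibre of `E`. -/
def NoCommonZero {n : ℕ} (g : Option k → Matrix (Fin n) (Fin n) K) (w : Option k → K) : Prop :=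
  ∀ (p : ClosedPoint k K) (x : Projectivization k (Fin n → k)),
    ∃ s : GlobalSection g w, s.value p.2 x.rep ≠ 0

/-- The sections of `O(2) ⊗ π^*(K_C ⊗ det E)` separate the closed points of `ℙ(E)`. -/
def SeparatesPoints {n : ℕ} (g : Option k → Matrix (Fin n) (Fin n) K) (w : Option k → K) : Prop :=
  ∀ (p p' : ClosedPoint k K) (x x' : Projectivization k (Fin n → k)),
    (p, x) ≠ (p', x') → ∃ s : GlobalSection g w, s.value p.2 x.rep = 0 ∧ s.value p'.2 x'.rep ≠ 0

/-- The `k[ε]`-valued point `(θ, ℓ)` of `ℙ(E)` is the zero tangent vector, i.e. it is a `k`-valued
point: `θ` takes values in `k`, and `ℓ = (1 + cε) ℓ₀` with `ℓ₀` over `k`. -/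
def IsZeroTangent {n : ℕ} {a : Option k} (θ : PointOver k K a (DualNumber k))
    (ℓ : Fin n → DualNumber k) : Prop :=
  (∀ b, (θ b).snd = 0) ∧ ∃ c : k, ∀ i, (ℓ i).snd = c * (ℓ i).fst

/-- The sections of `O(2) ⊗ π^*(K_C ⊗ det E)` separate the tangent vectors of `ℙ(E)`: for every
nonzero tangent vector, i.e. nonconstant `k[ε]`-valued point, some section vanishes at the point
but not along the tangent vector. -/
def SeparatesTangents {n : ℕ} (g : Option k → Matrix (Fin n) (Fin n) K) (w : Option k → K) :
    Prop :=
  ∀ (a : Option k) (θ : PointOver k K a (DualNumber k)) (ℓ : Fin n → DualNumber k),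
    (∃ i, (ℓ i).fst ≠ 0) → ¬ IsZeroTangent θ ℓ →
      ∃ s : GlobalSection g w, (s.value θ ℓ).fst = 0 ∧ (s.value θ ℓ).snd ≠ 0

/-- The line bundle `O(2) ⊗ π^*(K_C ⊗ det E)` on `ℙ(E)` is very ample. -/
def IsVeryAmple {n : ℕ} (g : Option k → Matrix (Fin n) (Fin n) K) (w : Option k → K) : Prop :=
  NoCommonZero g w ∧ SeparatesPoints g w ∧ SeparatesTangents g w

end Curve

end Pool.Agent.Helper38.Scroll
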