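import Pool.Agent.Helper38.Scroll.P12
import Pool.Agent.Helper38.Scroll.Statement

/-!
# The theorem in terms of the definitions of `Statement.lean`
-/

set_option linter.unusedSectionVars false

namespace Pool.Agent.Helper38.Scroll

open Matrix

section

variable {k K : Type} [Field k] [Field K] [Algebra (RatFunc k) K] [Algebra k K]
  [IsScalarTower k (RatFunc k) K] {n : ℕ}

lemma regular_iff {a : Option k} {f : K} : Curve.Regular a f ↔ f ∈ regRing k K a := Iff.rfl

lemma light_ordOver (a : Option k) (f : K) : Curve.ordOver a f = ordOver a f := rfl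

lemma light_degree {r : ℕ} (h : Option k → Matrix (Fin r) (Fin r) K) :
    Curve.degree h = degree h := rfl

lemma light_lattice {r : ℕ} (a : Option k) (h : Matrix (Fin r) (Fin r) K) :
    Curve.lattice a h = (lattice a h : Set (Fin r → K)) := by
  ext v
  rw [SetLike.mem_coe, lattice_eq_range, LinearMap.mem_range]
  constructor
  · rintro ⟨c, hc, rfl⟩
    exact ⟨fun i => ⟨c i, hc i⟩, rfl⟩
  · rintro ⟨c, rfl⟩
    exact ⟨fun i => (c i : K), fun i => (c i).2, rfl⟩

lemma light_lattice_eq_iff {r : ℕ} (a : Option k) (h h' : Matrix (Fin r) (Fin r) K) :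
    Curve.lattice a h = Curve.lattice a h' ↔ lattice a h = lattice a h' := by
  rw [light_lattice, light_lattice, SetLike.coe_set_eq]

lemma light_isBundle {g : Option k → Matrix (Fin n) (Fin n) K} (hg : Curve.IsBundle g) :
    IsBundle g := by
  refine ⟨hg.1, ?_⟩
  have h := hg.2
  simp only [ne_eq, light_lattice_eq_iff] at h
  exact h

lemma light_quotient {r : ℕ} {g : Option k → Matrix (Fin n) (Fin n) K}
    {A : Matrix (Fin r) (Fin n) K} {h : Option k → Matrix (Fin r) (Fin r) K}
    (hh : IsQuotientBundle g A h) : Curve.IsQuotientBundle g A h := by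
  intro a
  refine ⟨(hh a).1, ?_⟩
  rw [light_lattice, light_lattice, (hh a).2]
  rfl

lemma light_positive {g : Option k → Matrix (Fin n) (Fin n) K}
    (hg : Curve.HasPositiveQuotients g) : HasPositiveQuotients g :=
  fun r hr A hA h hh => hg r hr A hA h (light_quotient hh)

lemma light_twist (a : Option k) : Curve.twist a = twist a := by
  cases a <;> rfl

lemma light_canonical_iff {a : Option k} {w : K} :
    Curve.IsCanonicalGenerator a w ↔ IsCanonicalGenerator a w := by
  simp only [Curve.IsCanonicalGenerator, IsCanonicalGenerator, light_twist, regular_iff]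

/-- The section attached to a section. -/
noncomputable def GlobalSection.toLight {g : Option k → Matrix (Fin n) (Fin n) K} {w : Option k → K}
    (s : GlobalSection g w) : Curve.GlobalSection g w where
  mat := s.mat
  loc a := (s.loc a).map (algebraMap (regRing k K a) K)
  regular a i j := (s.loc a i j).2
  symm a := by
    have h := s.symm a
    ext i j
    have h1 := congrFun (congrFun h i) j
    simp only [Matrix.transpose_apply, Matrix.map_apply] at h1 ⊢
    rw [h1]
  eq := s.eq

/-- The comparison of the rings. -/
noncomputable def inc (a : Option k) : regRing k K a →ₐ[k] Curve.regularRing k K a where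
  toFun x := ⟨x, x.2⟩
  map_one' := rfl
  map_mul' _ _ := rfl
  map_zero' := rfl
  map_add' _ _ := rfl
  commutes' _ := rfl

lemma inc_surjective (a : Option k) : Function.Surjective (inc (k := k) (K := K) a) := by
  rintro ⟨x, hx⟩
  exact ⟨⟨x, hx⟩, rfl⟩

lemma toLight_value {g : Option k → Matrix (Fin n) (Fin n) K} {w : Option k → K}
    (s : GlobalSection g w) {R : Type} [CommRing R] [Algebra k R] {a : Option k}
    (θ : Curve.PointOver k K a R) (ℓ : Fin n → R) :
    s.toLight.value θ ℓ = s.value (θ.comp (inc a)) ℓ := by
  rw [Curve.GlobalSection.value, GlobalSection.value, dotProduct]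
  apply Finset.sum_congr rfl
  intro i _
  rw [mulVec, dotProduct, Finset.mul_sum]
  apply Finset.sum_congr rfl
  intro j _
  rw [mul_assoc]
  rfl

variable [IsAlgClosed k] [CharZero k] [FiniteDimensional (RatFunc k) K]

/-- **Fujita's very ampleness for scrolls over curves**, in the form of `Statement.lean`. -/
theorem light_veryAmple {g : Option k → Matrix (Fin n) (Fin n) K} (hg : Curve.IsBundle g)
    (hpos : Curve.HasPositiveQuotients g) {w : Option k → K}
    (hw : ∀ a, Curve.IsCanonicalGenerator a (w a)) : Curve.IsVeryAmple g w := by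
  have H : IsVeryAmple g w := veryAmple (light_isBundle hg)
    (fun a => light_canonical_iff.mp (hw a)) (light_positive hpos)
  refine ⟨?_, ?_, ?_⟩
  · intro p x
    obtain ⟨s, hs⟩ := H.nonvanishing ⟨p.1, p.2.comp (inc _)⟩ x
    refine ⟨s.toLight, ?_⟩
    rw [toLight_value]
    exact hs
  · intro p p' x x' hne
    have hne' : ((⟨p.1, p.2.comp (inc _)⟩, x) : CurvePoint k K × _) ≠
        (⟨p'.1, p'.2.comp (inc _)⟩, x') := by
      intro h
      apply hne
      obtain ⟨a, θ⟩ := p
      obtain ⟨b, θ'⟩ := p'
      have h1 := congrArg Prod.fst h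
      have h2 := congrArg Prod.snd h
      have h3 : a = b := congrArg Sigma.fst h1
      subst h3
      have h4 : θ.comp (inc a) = θ'.comp (inc a) := eq_of_heq (Sigma.mk.inj h1).2
      have h5 : θ = θ' := by
        apply AlgHom.ext
        intro y
        obtain ⟨z, rfl⟩ := inc_surjective a y
        exact congrArg (fun F => F z) h4
      have h6 : x = x' := h2
      rw [h5, h6]
    obtain ⟨s, hs, hs'⟩ := H.separates_points _ _ x x' hne'
    refine ⟨s.toLight, ?_, ?_⟩
    · rw [toLight_value]
      exact hs
    · rw [toLight_value]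
      exact hs'
  · intro a θ ℓ hℓ hne
    obtain ⟨s, hs, hs'⟩ := H.separates_tangents a (θ.comp (inc a)) ℓ hℓ (by
      rintro ⟨h1, h2⟩
      refine hne ⟨fun b => ?_, h2⟩
      obtain ⟨z, rfl⟩ := inc_surjective a b
      exact h1 z)
    refine ⟨s.toLight, ?_, ?_⟩
    · rw [toLight_value]
      exact hs
    · rw [toLight_value]
      exact hs'

theorem light_exists_canonicalGenerator :
    ∃ w : Option k → K, ∀ a, Curve.IsCanonicalGenerator a (w a) := by
  choose w hw using fun a : Option k => exists_canonicalGenerator (k := k) (K := K) a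
  exact ⟨w, fun a => light_canonical_iff.mpr (hw a)⟩

end

end Pool.Agent.Helper38.Scroll
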