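import Pool.Agent.Helper38.Scroll.Duality
import Pool.Agent.Helper38.Scroll.Defs

/-!
# The semilocal rings of a curve over the points of the projective line
-/

set_option linter.unusedSectionVars false

namespace Pool.Agent.Helper38.Scroll

open Polynomial

section

variable {k : Type} [Field k]

instance localRing_valuationRing (a : Option k) : ValuationRing (localRing a) := by
  rw [ValuationRing.iff_isInteger_or_isInteger (localRing a) (RatFunc k)]
  intro f
  rcases mem_or_inv_mem a f with h | h
  · left; exact ⟨⟨f, h⟩, rfl⟩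
  · right; exact ⟨⟨_, h⟩, rfl⟩

lemma isUnit_localRing {a : Option k} {r : localRing a} (hr : (r : RatFunc k) ≠ 0)
    (h : ordAt a (r : RatFunc k) = 0) : IsUnit r := by
  have hinv : (r : RatFunc k)⁻¹ ∈ localRing a := by
    rw [mem_localRing_of_ne (inv_ne_zero hr), ordAt_inv a hr, h]
    simp
  refine IsUnit.of_mul_eq_one ⟨_, hinv⟩ ?_
  apply Subtype.ext
  simp [hr]

/-- Every nonzero element of the local ring divides a power of the uniformizer. -/
lemma dvd_unif_pow {a : Option k} {r : RatFunc k} (hr : r ≠ 0) (hrm : r ∈ localRing a) :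
    r⁻¹ * unifAt a ^ (ordAt a r).toNat ∈ localRing a := by
  have h0 := (mem_localRing_of_ne hr).mp hrm
  rw [mem_localRing_of_ne (mul_ne_zero (inv_ne_zero hr) (pow_ne_zero _ (unifAt_ne_zero a))),
    ordAt_mul a (inv_ne_zero hr) (pow_ne_zero _ (unifAt_ne_zero a)), ordAt_inv a hr,
    ordAt_pow a (unifAt_ne_zero a), ordAt_unifAt]
  omega

end

section

variable (k K : Type) [Field k] [Field K] [Algebra (RatFunc k) K] [Algebra k K]
  [IsScalarTower k (RatFunc k) K]

variable {k K}

lemma algebraMap_mem_regRing {a : Option k} {r : RatFunc k} (hr : r ∈ localRing a) :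
    algebraMap (RatFunc k) K r ∈ regRing k K a :=
  (regRing k K a).algebraMap_mem ⟨r, hr⟩

variable [IsAlgClosed k] [CharZero k] [FiniteDimensional (RatFunc k) K]

instance regRing_isDedekindDomain (a : Option k) : IsDedekindDomain (regRing k K a) :=
  integralClosure.isDedekindDomain (localRing a) (RatFunc k) K

instance regRing_isFractionRing (a : Option k) : IsFractionRing (regRing k K a) K :=
  integralClosure.isFractionRing_of_finite_extension (RatFunc k) K

instance regRing_finite (a : Option k) : Module.Finite (localRing a) (regRing k K a) :=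
  IsIntegralClosure.finite (localRing a) (RatFunc k) K _

instance regRing_pid (a : Option k) : IsPrincipalIdealRing (regRing k K a) := by
  apply IsPrincipalIdealRing.of_finite_primes
  have h1 : (IsLocalRing.maximalIdeal (localRing a)).primesOver (regRing k K a) |>.Finite :=
    IsDedekindDomain.primesOver_finite _ _
  refine Set.Finite.subset (h1.insert ⊥) ?_
  intro P hP
  have hP' : P.IsPrime := hP
  by_cases hbot : P = ⊥
  · left; exact hbot
  right
  refine ⟨hP', ⟨?_⟩⟩
  have hcomap : P.under (localRing a) ≠ ⊥ := by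
    intro h
    exact hbot (Ideal.eq_bot_of_comap_eq_bot h)
  have hprime : (P.under (localRing a)).IsPrime := inferInstance
  have hmax : (P.under (localRing a)).IsMaximal := hprime.isMaximal hcomap
  exact (IsLocalRing.eq_maximalIdeal hmax).symm

/-- The functions regular over `a` absorb: every function has a pole of bounded order. -/
lemma regRing_absorb (a : Option k) (f : K) :
    ∃ m : ℕ, (unifAt a) ^ m • f ∈ regRing k K a := by
  have halg : IsAlgebraic (localRing a) f := by
    have := IsLocalization.isAlgebraic (RatFunc k) (nonZeroDivisors (localRing a))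
    have h2 : Algebra.IsAlgebraic (localRing a) K := Algebra.IsAlgebraic.trans (localRing a) (RatFunc k) K
    exact h2.isAlgebraic f
  obtain ⟨y, hy0, hy⟩ := halg.exists_integral_multiple
  have hy0' : (y : RatFunc k) ≠ 0 := by
    intro h; exact hy0 (Subtype.ext h)
  refine ⟨(ordAt a (y : RatFunc k)).toNat, ?_⟩
  have h1 := dvd_unif_pow hy0' y.2
  have h2 : (unifAt a) ^ (ordAt a (y : RatFunc k)).toNat • f =
      (⟨_, h1⟩ : localRing a) • (y • f) := by
    change _ = ((y : RatFunc k)⁻¹ * unifAt a ^ (ordAt a (y : RatFunc k)).toNat) •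
      ((y : RatFunc k) • f)
    rw [smul_smul, mul_comm, ← mul_assoc, mul_inv_cancel₀ hy0', one_mul]
  rw [h2]
  exact (regRing k K a).smul_mem hy _

omit [IsAlgClosed k] [CharZero k] [FiniteDimensional (RatFunc k) K] in
lemma localRing_cofinite (r : RatFunc k) : {a : Option k | r ∉ localRing a}.Finite := by
  by_cases hr : r = 0
  · subst hr
    convert Set.finite_empty
    ext a
    simp
  · refine (ordAt_support_finite hr).subset ?_
    intro a ha
    simp only [Set.mem_ofPred_eq] at ha ⊢
    intro h
    exact ha ((mem_localRing_of_ne hr).mpr (by omega))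

omit [IsAlgClosed k] [CharZero k] in
/-- Every function is regular over all but finitely many points. -/
lemma regRing_cofinite (f : K) : {a : Option k | f ∉ regRing k K a}.Finite := by
  have hint : IsIntegral (RatFunc k) f := Algebra.IsIntegral.isIntegral f
  set p := minpoly (RatFunc k) f with hp
  have hfin : (⋃ i ∈ Finset.range (p.natDegree + 1), {a : Option k | p.coeff i ∉ localRing a}).Finite :=
    Set.Finite.biUnion (Finset.finite_toSet _) fun i _ => localRing_cofinite _
  refine hfin.subset ?_
  intro a ha
  by_contra hcon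
  apply ha
  have hcoeff : ∀ i, p.coeff i ∈ localRing a := by
    intro i
    by_cases hi : i ∈ Finset.range (p.natDegree + 1)
    · by_contra h
      exact hcon (Set.mem_biUnion (Finset.mem_coe.mpr hi) h)
    · rw [coeff_eq_zero_of_natDegree_lt (by simpa [Nat.lt_succ_iff] using hi)]
      exact Subalgebra.zero_mem _
  have hlift : p ∈ lifts (algebraMap (localRing a) (RatFunc k)) := by
    rw [lifts_iff_coeff_lifts]
    intro i
    exact ⟨⟨_, hcoeff i⟩, rfl⟩
  obtain ⟨q, hq, -, hqm⟩ := lifts_and_natDegree_eq_and_monic hlift (minpoly.monic hint)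
  refine ⟨q, hqm, ?_⟩
  have h1 : aeval f q = aeval f (q.map (algebraMap (localRing a) (RatFunc k))) := by
    rw [aeval_map_algebraMap]
  change aeval f q = 0
  rw [h1, hq, hp, minpoly.aeval]

omit [IsAlgClosed k] [CharZero k] in
lemma norm_ne_zero' {f : K} (hf : f ≠ 0) : Algebra.norm (RatFunc k) f ≠ 0 :=
  Algebra.norm_ne_zero_iff.mpr hf

omit [IsAlgClosed k] [CharZero k] in
lemma ordOver_mul (a : Option k) {f g : K} (hf : f ≠ 0) (hg : g ≠ 0) :
    ordOver a (f * g) = ordOver a f + ordOver a g := by
  rw [ordOver, map_mul, ordAt_mul a (norm_ne_zero' hf) (norm_ne_zero' hg)]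
  rfl

omit [IsAlgClosed k] [CharZero k] [FiniteDimensional (RatFunc k) K] in
lemma ordOver_one (a : Option k) : ordOver a (1 : K) = 0 := by
  rw [ordOver, map_one, ordAt_one]

omit [IsAlgClosed k] [CharZero k] in
lemma ordOver_inv (a : Option k) {f : K} (hf : f ≠ 0) : ordOver a f⁻¹ = - ordOver a f := by
  have h := ordOver_mul a hf (inv_ne_zero hf)
  rw [mul_inv_cancel₀ hf, ordOver_one] at h
  omega

omit [IsAlgClosed k] [CharZero k] in
lemma ordOver_pow (a : Option k) {f : K} (hf : f ≠ 0) (m : ℕ) :
    ordOver a (f ^ m) = m * ordOver a f := by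
  rw [ordOver, map_pow, ordAt_pow a (norm_ne_zero' hf)]
  rfl

omit [IsAlgClosed k] [CharZero k] in
lemma norm_mem_localRing {a : Option k} {f : K} (hf : f ∈ regRing k K a) :
    Algebra.norm (RatFunc k) f ∈ localRing a := by
  have h1 : IsIntegral (localRing a) f := hf
  have h2 : IsIntegral (localRing a) (Algebra.norm (RatFunc k) f) := Algebra.isIntegral_norm _ h1
  obtain ⟨y, hy⟩ := (IsIntegrallyClosed.isIntegral_iff (R := localRing a)).mp h2
  rw [← hy]
  exact y.2

omit [IsAlgClosed k] [CharZero k] in
lemma ordOver_nonneg {a : Option k} {f : K} (hf0 : f ≠ 0) (hf : f ∈ regRing k K a) :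
    0 ≤ ordOver a f :=
  (mem_localRing_of_ne (norm_ne_zero' hf0)).mp (norm_mem_localRing hf)

omit [IsAlgClosed k] [CharZero k] in
lemma ordOver_unit {a : Option k} {f : K} (hf0 : f ≠ 0) (hf : f ∈ regRing k K a)
    (hf' : f⁻¹ ∈ regRing k K a) : ordOver a f = 0 := by
  have h1 := ordOver_nonneg hf0 hf
  have h2 := ordOver_nonneg (inv_ne_zero hf0) hf'
  rw [ordOver_inv a hf0] at h2
  omega

omit [IsAlgClosed k] [CharZero k] in
lemma trace_mem_localRing {a : Option k} {f : K} (hf : f ∈ regRing k K a) :
    Algebra.trace (RatFunc k) K f ∈ localRing a := by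
  have h1 : IsIntegral (localRing a) f := hf
  have h2 : IsIntegral (localRing a) (Algebra.trace (RatFunc k) K f) :=
    Algebra.isIntegral_trace h1
  obtain ⟨y, hy⟩ := (IsIntegrallyClosed.isIntegral_iff (R := localRing a)).mp h2
  rw [← hy]
  exact y.2

end

end Pool.Agent.Helper38.Scroll
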