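import Pool.Agent.Helper38.Scroll.P2

/-!
# Lattices, frames and the order of determinants
-/

set_option linter.unusedSectionVars false

namespace Pool.Agent.Helper38.Scroll

open Polynomial Matrix Module

section

variable {k : Type} [Field k]

/-- `N₁` has `k`-codimension at most `c` in `N₀`: vectors of `N₀` which are linearly independent
modulo `N₁` number at most `c`. -/
def CodimLE (k : Type) [Field k] {V : Type} [AddCommGroup V] [Module k V] (N₀ N₁ : Set V) (c : ℕ) :
    Prop :=
  ∀ (ι : Type) [Fintype ι] (v : ι → V), (∀ i, v i ∈ N₀) →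
    (∀ g : ι → k, ∑ i, g i • v i ∈ N₁ → g = 0) → Fintype.card ι ≤ c

lemma CodimLE.image {V V' : Type} [AddCommGroup V] [Module k V] [AddCommGroup V'] [Module k V']
    {N₀ N₁ : Set V} {c : ℕ} (h : CodimLE k N₀ N₁ c) (A : V →ₗ[k] V') :
    CodimLE k (A '' N₀) (A '' N₁) c := by
  intro ι _ v hv hind
  choose w hw hwv using hv
  apply h ι w hw
  intro g hg
  apply hind g
  refine ⟨_, hg, ?_⟩
  rw [map_sum]
  simp only [map_smul, hwv]

lemma ordAt_zero (a : Option k) : ordAt a (0 : RatFunc k) = 0 := by
  rcases a with _ | a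
  · simp [ordAt]
  · have h2 : rootMultiplicity a (1 : k[X]) = 0 := by rw [← C_1, rootMultiplicity_C]
    simp [ordAt, h2]

lemma ordAt_const_add {a : Option k} {c : k} (hc : c ≠ 0) {t : RatFunc k}
    (ht : t = 0 ∨ 1 ≤ ordAt a t) : ¬ (algebraMap k (RatFunc k) c + t = 0 ∨
      1 ≤ ordAt a (algebraMap k (RatFunc k) c + t)) := by
  have hc' : algebraMap k (RatFunc k) c ≠ 0 := by simpa using hc
  have h0 := ordAt_algebraMap a hc
  intro h
  rcases ht with rfl | ht
  · rw [add_zero] at h
    rcases h with h | h
    · exact hc' h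
    · omega
  · have ht0 : t ≠ 0 := by
      rintro rfl
      rw [ordAt_zero] at ht
      omega
    rcases h with h | h
    · have h1 : t = algebraMap k (RatFunc k) (-c) := by
        rw [map_neg]
        exact eq_neg_of_add_eq_zero_right h
      rw [h1, ordAt_algebraMap a (neg_ne_zero.mpr hc)] at ht
      omega
    · have hs0 : algebraMap k (RatFunc k) c + t ≠ 0 := by
        intro h0'
        rw [h0', ordAt_zero] at h
        omega
      have h1 : (algebraMap k (RatFunc k) c + t) + (-t) ≠ 0 := by
        rw [add_neg_cancel_right]; exact hc'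
      have h2 := ordAt_add a hs0 (neg_ne_zero.mpr ht0) h1
      rw [add_neg_cancel_right, h0] at h2
      have h3 : ordAt a (-t) = ordAt a t := by
        have h4 := ordAt_mul a (f := algebraMap k (RatFunc k) (-1)) (g := t) (by simp) ht0
        rw [ordAt_algebraMap a (by simp), zero_add] at h4
        rw [← h4]
        simp
      omega

lemma coeff_zero_of_ord (a : Option k) : ∀ (s : ℕ) (g : Fin s → k),
    (∑ j, g j • unifAt a ^ (j : ℕ) = 0 ∨ (s : ℤ) ≤ ordAt a (∑ j, g j • unifAt a ^ (j : ℕ))) →
      g = 0 := by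
  intro s
  induction s with
  | zero => intro g _; exact Subsingleton.elim _ _
  | succ s ih =>
    intro g hg
    rw [Fin.sum_univ_succ] at hg
    set t := ∑ j : Fin s, g j.succ • unifAt a ^ (j : ℕ) with ht
    have h1 : g 0 • unifAt a ^ ((0 : Fin (s+1)) : ℕ) + ∑ i : Fin s, g i.succ • unifAt a ^ (i.succ : ℕ) =
        algebraMap k (RatFunc k) (g 0) + unifAt a * t := by
      rw [ht, Finset.mul_sum]
      congr 1
      · rw [Algebra.smul_def]; simp
      · apply Finset.sum_congr rfl
        intro i _
        rw [Fin.val_succ, pow_succ', mul_smul_comm]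
    rw [h1] at hg
    have htm : t ∈ localRing a := by
      rw [ht]
      apply Subalgebra.sum_mem
      intro i _
      exact Subalgebra.smul_mem _ (pow_mem (unifAt_mem a) _) _
    have hut : unifAt a * t = 0 ∨ 1 ≤ ordAt a (unifAt a * t) := by
      by_cases ht0 : t = 0
      · left; rw [ht0, mul_zero]
      · right
        rw [ordAt_mul a (unifAt_ne_zero a) ht0, ordAt_unifAt]
        have := (mem_localRing_of_ne ht0).mp htm
        omega
    have hg0 : g 0 = 0 := by
      by_contra hne
      apply ordAt_const_add hne hut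
      rcases hg with hg | hg
      · left; exact hg
      · right; push_cast at hg; omega
    rw [hg0, map_zero, zero_add] at hg
    have ht' : t = 0 ∨ (s : ℤ) ≤ ordAt a t := by
      by_cases ht0 : t = 0
      · left; exact ht0
      · right
        rcases hg with hg | hg
        · exact absurd hg (mul_ne_zero (unifAt_ne_zero a) ht0)
        · rw [ordAt_mul a (unifAt_ne_zero a) ht0, ordAt_unifAt] at hg
          push_cast at hg
          omega
    have h2 := ih (fun j => g j.succ) ht'
    funext j
    refine Fin.cases hg0 (fun i => ?_) j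
    exact congrFun h2 i

lemma ordAt_prod (a : Option k) {ι : Type} (s : Finset ι) (f : ι → RatFunc k)
    (hf : ∀ i ∈ s, f i ≠ 0) : ordAt a (∏ i ∈ s, f i) = ∑ i ∈ s, ordAt a (f i) := by
  classical
  induction s using Finset.induction_on with
  | empty => simp
  | insert i s his ih =>
    rw [Finset.prod_insert his, Finset.sum_insert his,
      ordAt_mul a (hf i (Finset.mem_insert_self _ _))
        (Finset.prod_ne_zero_iff.mpr fun j hj => hf j (Finset.mem_insert_of_mem hj)),
      ih fun j hj => hf j (Finset.mem_insert_of_mem hj)]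

/-- The order of a determinant is at most the colength of the lattice. -/
lemma ordAt_det_le {V : Type} [AddCommGroup V] [Module (RatFunc k) V] [Module k V]
    [IsScalarTower k (RatFunc k) V] [FiniteDimensional (RatFunc k) V] (a : Option k)
    (N₀ N₁ : Submodule (localRing a) V) [N₀.IsLattice (RatFunc k)] [N₁.IsLattice (RatFunc k)]
    (hle : N₁ ≤ N₀) (f : V →ₗ[RatFunc k] V) (hf : N₀.map (f.restrictScalars (localRing a)) = N₁)
    {c : ℕ} (hc : CodimLE k (N₀ : Set V) N₁ c) : ordAt a f.det ≤ c := by
  classical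
  -- bases
  have hfree0 : Module.Free (localRing a) N₀ := Submodule.IsLattice.free (RatFunc k) N₀
  have hfree1 : Module.Free (localRing a) N₁ := Submodule.IsLattice.free (RatFunc k) N₁
  have hfin0 : Module.Finite (localRing a) N₀ := Submodule.IsLattice.finite (RatFunc k) N₀
  set m := finrank (localRing a) N₀ with hm
  have hrank : finrank (localRing a) N₁ = finrank (localRing a) N₀ := by
    have h0 := Submodule.IsLattice.rank' (RatFunc k) N₀
    have h1 := Submodule.IsLattice.rank' (RatFunc k) N₁
    rw [finrank, finrank, h0, h1]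
  set N₁' : Submodule (localRing a) N₀ := N₁.comap N₀.subtype with hN₁'
  have e1 : N₁' ≃ₗ[localRing a] N₁ := Submodule.comapSubtypeEquivOfLe hle
  have hrank' : finrank (localRing a) N₁' = finrank (localRing a) N₀ := by
    rw [e1.finrank_eq, hrank]
  obtain ⟨b', α, ab', hab⟩ := Submodule.exists_smith_normal_form_of_rank_eq
    (Module.finBasis (localRing a) N₀) hrank'
  -- f is bijective
  have hspan1 : Submodule.span (RatFunc k) (N₁ : Set V) = ⊤ := Submodule.IsLattice.span_eq_top
  have hsurj : Function.Surjective f := by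
    rw [← LinearMap.range_eq_top, eq_top_iff, ← hspan1, Submodule.span_le]
    intro x hx
    rw [← hf] at hx
    obtain ⟨y, -, rfl⟩ := hx
    exact ⟨y, rfl⟩
  have hinj : Function.Injective f := LinearMap.injective_iff_surjective.mpr hsurj
  have hmaps : ∀ x ∈ N₀, f.restrictScalars (localRing a) x ∈ N₁ := by
    intro x hx
    rw [← hf]
    exact ⟨x, hx, rfl⟩
  set g : N₀ →ₗ[localRing a] N₁ := (f.restrictScalars (localRing a)).restrict hmaps with hg
  have hgb : Function.Bijective g := by
    constructor
    · intro x y hxy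
      apply Subtype.ext
      apply hinj
      exact congrArg Subtype.val hxy
    · rintro ⟨y, hy⟩
      have hy' := hy
      rw [← hf] at hy'
      obtain ⟨x, hx, hxy⟩ := hy'
      exact ⟨⟨x, hx⟩, Subtype.ext hxy⟩
  set e : N₀ ≃ₗ[localRing a] N₁ := LinearEquiv.ofBijective g hgb with he
  set bN1 : Basis (Fin m) (localRing a) N₁ :=
    ab'.map (Submodule.comapSubtypeEquivOfLe hle) with hbN1
  set bf : Basis (Fin m) (localRing a) N₁ := b'.map e with hbf
  set P := bN1.toMatrix bf with hP
  have hPunit : IsUnit P.det := by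
    have h1 : bN1.toMatrix bf * bf.toMatrix bN1 = 1 := Basis.toMatrix_mul_toMatrix_flip _ _
    have h2 := congrArg Matrix.det h1
    rw [Matrix.det_mul, Matrix.det_one] at h2
    exact IsUnit.of_mul_eq_one _ h2
  set bV : Basis (Fin m) (RatFunc k) V := b'.extendOfIsLattice (RatFunc k) with hbV
  have hbVval : ∀ i, bV i = (b' i : V) := fun i => by rw [hbV, Basis.extendOfIsLattice_apply]
  have hbN1val : ∀ i, ((bN1 i : N₁) : V) = (α i : RatFunc k) • (b' i : V) := by
    intro i
    have h1 := hab i
    have h2 : ((bN1 i : N₁) : V) = ((ab' i : N₀) : V) := by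
      rw [hbN1, Basis.map_apply]
      rfl
    rw [h2, h1]
    rfl
  -- the matrix of f
  have hmat : LinearMap.toMatrix bV bV f =
      (Matrix.diagonal α * P).map (algebraMap (localRing a) (RatFunc k)) := by
    ext i j
    rw [LinearMap.toMatrix_apply]
    have h1 : f (bV j) = ∑ l, ((Matrix.diagonal α * P) l j : RatFunc k) • bV l := by
      have h2 : f (bV j) = ((bf j : N₁) : V) := by
        rw [hbVval, hbf, Basis.map_apply]
        rfl
      rw [h2, ← Basis.sum_toMatrix_smul_self bN1 bf j]
      rw [Submodule.coe_sum]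
      apply Finset.sum_congr rfl
      intro l _
      rw [Matrix.diagonal_mul, hbVval, Submodule.coe_smul, hbN1val]
      change ((P l j : localRing a) : RatFunc k) • ((α l : RatFunc k) • (b' l : V)) = _
      rw [smul_smul]
      congr 1
      rw [mul_comm]
      rfl
    rw [h1, map_sum, Finsupp.finsetSum_apply]
    simp only [map_smul, Finsupp.smul_apply, Basis.repr_self, smul_eq_mul]
    rw [Finset.sum_eq_single i]
    · simp
    · intro l _ hl
      rw [Finsupp.single_eq_of_ne (by simpa using hl.symm)]
      simp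
    · simp
  have hdet : f.det = (∏ i, (α i : RatFunc k)) * (P.det : RatFunc k) := by
    rw [← LinearMap.det_toMatrix bV, hmat]
    have h1 := (RingHom.map_det (algebraMap (localRing a) (RatFunc k))
      (Matrix.diagonal α * P)).symm
    rw [RingHom.mapMatrix_apply] at h1
    rw [h1, Matrix.det_mul, Matrix.det_diagonal, map_mul, map_prod]
    rfl
  have hα : ∀ i, (α i : RatFunc k) ≠ 0 := by
    intro i h0
    have h1 := hab i
    have h2 : α i = 0 := Subtype.ext h0
    rw [h2, zero_smul] at h1
    exact ab'.ne_zero i (Subtype.ext h1)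
  have hP0 : (P.det : RatFunc k) ≠ 0 := by
    intro h0
    exact hPunit.ne_zero (Subtype.ext h0)
  have hPord : ordAt a (P.det : RatFunc k) = 0 := by
    obtain ⟨q, hq⟩ := hPunit.exists_right_inv
    have hq' : (P.det : RatFunc k) * (q : RatFunc k) = 1 := by
      have := congrArg Subtype.val hq
      simpa using this
    have hq0 : (q : RatFunc k) ≠ 0 := by
      intro h0; rw [h0, mul_zero] at hq'; exact zero_ne_one hq'
    have h1 := ordAt_mul a hP0 hq0
    rw [hq', ordAt_one] at h1
    have h2 := (mem_localRing_of_ne hP0).mp P.det.2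
    have h3 := (mem_localRing_of_ne hq0).mp q.2
    omega
  rw [hdet, ordAt_mul a (Finset.prod_ne_zero_iff.mpr fun i _ => hα i) hP0, hPord, add_zero,
    ordAt_prod a _ _ fun i _ => hα i]
  have hαnn : ∀ i, 0 ≤ ordAt a (α i : RatFunc k) := fun i =>
    (mem_localRing_of_ne (hα i)).mp (α i).2
  -- the independent vectors
  have hcard := hc (Σ i : Fin m, Fin (ordAt a (α i : RatFunc k)).toNat)
    (fun p => (unifAt a) ^ (p.2 : ℕ) • (b' p.1 : V)) ?_ ?_
  · rw [Fintype.card_sigma] at hcard
    simp only [Fintype.card_fin] at hcard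
    have : ((∑ i, (ordAt a (α i : RatFunc k)).toNat : ℕ) : ℤ) = ∑ i, ordAt a (α i : RatFunc k) := by
      push_cast
      apply Finset.sum_congr rfl
      intro i _
      exact Int.toNat_of_nonneg (hαnn i)
    rw [← this]
    exact_mod_cast hcard
  · rintro ⟨i, j⟩
    exact N₀.smul_mem (⟨_, pow_mem (unifAt_mem a) (j : ℕ)⟩ : localRing a) (b' i).2
  · intro γ hγ
    -- coefficients
    have hr : ∀ i, (∑ j : Fin (ordAt a (α i : RatFunc k)).toNat, γ ⟨i, j⟩ • unifAt a ^ (j : ℕ)) ∈
        localRing a := by
      intro i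
      apply Subalgebra.sum_mem
      intro j _
      exact Subalgebra.smul_mem _ (pow_mem (unifAt_mem a) _) _
    have hx : ∑ p : (Σ i : Fin m, Fin (ordAt a (α i : RatFunc k)).toNat),
        γ p • ((unifAt a) ^ (p.2 : ℕ) • (b' p.1 : V)) =
        ((∑ i, (⟨_, hr i⟩ : localRing a) • b' i : N₀) : V) := by
      rw [Fintype.sum_sigma, Submodule.coe_sum]
      apply Finset.sum_congr rfl
      intro i _
      rw [Submodule.coe_smul]
      change _ = (∑ j : Fin (ordAt a (α i : RatFunc k)).toNat, γ ⟨i, j⟩ • unifAt a ^ (j : ℕ)) •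
        (b' i : V)
      rw [Finset.sum_smul]
      apply Finset.sum_congr rfl
      intro j _
      rw [smul_assoc]
    rw [hx] at hγ
    set y : N₀ := ∑ i, (⟨_, hr i⟩ : localRing a) • b' i with hy
    have hyN : y ∈ N₁' := hγ
    have hyrep := ab'.sum_repr ⟨y, hyN⟩
    have hy2 : y = ∑ i, ((ab'.repr ⟨y, hyN⟩ i) * α i) • b' i := by
      have h1 : ∑ i, ((ab'.repr ⟨y, hyN⟩ i • ab' i : N₁') : N₀) = y := by
        rw [← Submodule.coe_sum]
        exact congrArg (Subtype.val) hyrep
      conv_lhs => rw [← h1]
      apply Finset.sum_congr rfl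
      intro i _
      rw [Submodule.coe_smul, hab, smul_smul]
    have hcoef : ∀ i, (⟨_, hr i⟩ : localRing a) = (ab'.repr ⟨y, hyN⟩ i) * α i := by
      intro i
      have h1 : b'.repr y i = ⟨_, hr i⟩ := by
        rw [hy, Basis.repr_sum_self]
      have h2 : b'.repr y i = (ab'.repr ⟨y, hyN⟩ i) * α i := by
        conv_lhs => rw [hy2]
        rw [Basis.repr_sum_self]
      rw [← h1, h2]
    funext p
    obtain ⟨i, j⟩ := p
    have h3 := coeff_zero_of_ord a _ (fun j => γ ⟨i, j⟩) ?_
    · exact congrFun h3 j
    · have h4 : (∑ j : Fin (ordAt a (α i : RatFunc k)).toNat, γ ⟨i, j⟩ • unifAt a ^ (j : ℕ)) =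
          ((ab'.repr ⟨y, hyN⟩ i : localRing a) : RatFunc k) * (α i : RatFunc k) := by
        have := congrArg Subtype.val (hcoef i)
        simpa using this
      rw [h4]
      by_cases hq : ((ab'.repr ⟨y, hyN⟩ i : localRing a) : RatFunc k) = 0
      · left; rw [hq, zero_mul]
      · right
        rw [ordAt_mul a hq (hα i)]
        have h5 := (mem_localRing_of_ne hq).mp (ab'.repr ⟨y, hyN⟩ i : localRing a).2
        have h6 := hαnn i
        omega

end

end Pool.Agent.Helper38.Scroll
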