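import Pool.Agent.Helper38.Scroll.P3

/-!
# Lattices over the semilocal rings: frames, degrees
-/

set_option linter.unusedSectionVars false

namespace Pool.Agent.Helper38.Scroll

open Polynomial Matrix Module

section

variable {k K : Type} [Field k] [Field K] [Algebra (RatFunc k) K] [Algebra k K]
  [IsScalarTower k (RatFunc k) K]

/-- Multiplication by a matrix, from integral vectors. -/
noncomputable def opMap {r n : ℕ} (a : Option k) (M : Matrix (Fin r) (Fin n) K) :
    (Fin n → regRing k K a) →ₗ[regRing k K a] (Fin r → K) where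
  toFun v := M *ᵥ (fun i => (v i : K))
  map_add' v w := by
    have : (fun i => ((v + w) i : K)) = (fun i => (v i : K)) + (fun i => (w i : K)) := rfl
    rw [this, mulVec_add]
  map_smul' c v := by
    have : (fun i => ((c • v) i : K)) = (c : K) • (fun i => (v i : K)) := rfl
    rw [this, mulVec_smul]
    rfl

lemma opMap_apply {r n : ℕ} (a : Option k) (M : Matrix (Fin r) (Fin n) K)
    (v : Fin n → regRing k K a) : opMap a M v = M *ᵥ (fun i => (v i : K)) := rfl

lemma lattice_eq_range {r : ℕ} (a : Option k) (h : Matrix (Fin r) (Fin r) K) :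
    lattice a h = LinearMap.range (opMap a h) := by
  ext v
  rw [lattice, Submodule.mem_span_range_iff_exists_fun, LinearMap.mem_range]
  constructor
  · rintro ⟨c, rfl⟩
    refine ⟨c, ?_⟩
    rw [opMap_apply]
    ext i
    rw [mulVec, dotProduct, Finset.sum_apply]
    apply Finset.sum_congr rfl
    intro j _
    rw [mul_comm]
    rfl
  · rintro ⟨c, rfl⟩
    refine ⟨c, ?_⟩
    rw [opMap_apply]
    ext i
    rw [mulVec, dotProduct, Finset.sum_apply]
    apply Finset.sum_congr rfl
    intro j _
    rw [mul_comm]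
    rfl

lemma lattice_map {r n : ℕ} (a : Option k) (A : Matrix (Fin r) (Fin n) K)
    (g : Matrix (Fin n) (Fin n) K) :
    (lattice a g).map ((Matrix.mulVecLin A).restrictScalars (regRing k K a)) =
      LinearMap.range (opMap a (A * g)) := by
  rw [lattice_eq_range, ← LinearMap.range_comp]
  congr 1
  ext v i
  simp only [LinearMap.comp_apply, opMap_apply, LinearMap.restrictScalars_apply, mulVecLin_apply,
    mulVec_mulVec]

variable [IsAlgClosed k] [CharZero k] [FiniteDimensional (RatFunc k) K]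

lemma smul_regRing_mem {a : Option k} {r : RatFunc k} (hr : r ∈ localRing a) {f : K}
    (hf : f ∈ regRing k K a) : r • f ∈ regRing k K a :=
  (regRing k K a).smul_mem hf (⟨r, hr⟩ : localRing a)

lemma vec_absorb {n : ℕ} (a : Option k) (x : Fin n → K) :
    ∃ m : ℕ, ∀ i, (unifAt a) ^ m • x i ∈ regRing k K a := by
  choose m hm using fun i => regRing_absorb (k := k) a (x i)
  refine ⟨∑ i, m i, fun i => ?_⟩
  have h1 : m i ≤ ∑ i, m i := Finset.single_le_sum (fun _ _ => Nat.zero_le _) (Finset.mem_univ i)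
  obtain ⟨d, hd⟩ := Nat.exists_eq_add_of_le' h1
  rw [hd, pow_add, mul_smul]
  exact smul_regRing_mem (pow_mem (unifAt_mem a) d) (hm i)

/-- A submodule of `K^r` absorbing all vectors and finitely generated is a lattice over the local
ring of the line. -/
lemma isLattice_of_absorb {r : ℕ} (a : Option k) (N : Submodule (regRing k K a) (Fin r → K))
    (hfg : N.FG) (habs : ∀ v, ∃ m : ℕ, (unifAt a) ^ m • v ∈ N) :
    (N.restrictScalars (localRing a)).IsLattice (RatFunc k) where
  fg := by
    have h1 : Module.Finite (regRing k K a) N := Module.Finite.iff_fg.mpr hfg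
    have h2 : Module.Finite (localRing a) N := Module.Finite.trans (regRing k K a) N
    have h3 : Module.Finite (localRing a) (N.restrictScalars (localRing a)) := h2
    exact Module.Finite.iff_fg.mp h3
  span_eq_top := by
    rw [eq_top_iff]
    intro v _
    obtain ⟨m, hm⟩ := habs v
    have h0 : (unifAt a) ^ m ≠ 0 := pow_ne_zero _ (unifAt_ne_zero a)
    have h1 : v = ((unifAt a) ^ m)⁻¹ • ((unifAt a) ^ m • v) := by
      rw [smul_smul, inv_mul_cancel₀ h0, one_smul]
    rw [h1]
    exact Submodule.smul_mem _ _ (Submodule.subset_span hm)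

lemma isLattice_of_absorb' {r : ℕ} (a : Option k) (N : Submodule (regRing k K a) (Fin r → K))
    (hfg : N.FG) (habs : ∀ v, ∃ m : ℕ, (unifAt a) ^ m • v ∈ N) : N.IsLattice K where
  fg := hfg
  span_eq_top := by
    rw [eq_top_iff]
    intro v _
    obtain ⟨m, hm⟩ := habs v
    have h0 : (unifAt a) ^ m ≠ 0 := pow_ne_zero _ (unifAt_ne_zero a)
    have h1 : v = (algebraMap (RatFunc k) K ((unifAt a) ^ m)⁻¹) • ((unifAt a) ^ m • v) := by
      rw [algebraMap_smul, smul_smul, inv_mul_cancel₀ h0, one_smul]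
    rw [h1]
    exact Submodule.smul_mem _ _ (Submodule.subset_span hm)

/-- Every lattice has a frame. -/
lemma exists_frame {r : ℕ} (a : Option k) (N : Submodule (regRing k K a) (Fin r → K))
    (hfg : N.FG) (habs : ∀ v, ∃ m : ℕ, (unifAt a) ^ m • v ∈ N) :
    ∃ h : Matrix (Fin r) (Fin r) K, h.det ≠ 0 ∧ lattice a h = N := by
  have hL : N.IsLattice K := isLattice_of_absorb' a N hfg habs
  have hfree : Module.Free (regRing k K a) N := Submodule.IsLattice.free K N
  have hfin : Module.Finite (regRing k K a) N := Submodule.IsLattice.finite K N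
  have hrank : finrank (regRing k K a) N = r := by
    rw [Submodule.IsLattice.finrank_of_pi K N, Fintype.card_fin]
  let b : Basis (Fin r) (regRing k K a) N := Module.finBasisOfFinrankEq _ _ hrank
  let bK : Basis (Fin r) K (Fin r → K) := b.extendOfIsLattice K
  refine ⟨(Pi.basisFun K (Fin r)).toMatrix bK, ?_, ?_⟩
  · have h1 : (Pi.basisFun K (Fin r)).toMatrix bK * bK.toMatrix (Pi.basisFun K (Fin r)) = 1 :=
      Basis.toMatrix_mul_toMatrix_flip _ _
    have h2 := congrArg Matrix.det h1
    rw [Matrix.det_mul, Matrix.det_one] at h2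
    intro h0
    rw [h0, zero_mul] at h2
    exact zero_ne_one h2
  · have h1 : ((Pi.basisFun K (Fin r)).toMatrix bK)ᵀ = fun i => (b i : Fin r → K) := by
      ext i j
      simp [Basis.toMatrix_apply, bK, Basis.extendOfIsLattice_apply]
    rw [lattice, h1]
    have h2 : Set.range (fun i => (b i : Fin r → K)) = N.subtype '' Set.range b := by
      rw [← Set.range_comp]
      rfl
    rw [h2, ← Submodule.map_span, b.span_eq, Submodule.map_top, Submodule.range_subtype]

lemma lattice_fg {r : ℕ} (a : Option k) (h : Matrix (Fin r) (Fin r) K) : (lattice a h).FG :=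
  Submodule.fg_span (Set.finite_range _)

lemma lattice_absorb {r : ℕ} (a : Option k) {h : Matrix (Fin r) (Fin r) K} (hdet : h.det ≠ 0)
    (v : Fin r → K) : ∃ m : ℕ, (unifAt a) ^ m • v ∈ lattice a h := by
  obtain ⟨m, hm⟩ := vec_absorb a (h⁻¹ *ᵥ v)
  refine ⟨m, ?_⟩
  rw [lattice_eq_range]
  refine ⟨fun i => ⟨_, hm i⟩, ?_⟩
  rw [opMap_apply]
  have h1 : (fun i => (unifAt a) ^ m • (h⁻¹ *ᵥ v) i) =
      (unifAt a) ^ m • (h⁻¹ *ᵥ v) := rfl
  rw [h1, mulVec_smul, mulVec_mulVec, Matrix.mul_nonsing_inv _ (isUnit_iff_ne_zero.mpr hdet),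
    one_mulVec]

/-- Comparison of the determinants of two lattices. -/
lemma ordOver_det_le {r : ℕ} (a : Option k) {h₀ h₁ : Matrix (Fin r) (Fin r) K}
    (hd₀ : h₀.det ≠ 0) (hd₁ : h₁.det ≠ 0) (hle : lattice a h₁ ≤ lattice a h₀) {c : ℕ}
    (hc : CodimLE k (lattice a h₀ : Set (Fin r → K)) (lattice a h₁) c) :
    ordOver a h₁.det ≤ ordOver a h₀.det + c := by
  have hL₀ := isLattice_of_absorb a _ (lattice_fg a h₀) (lattice_absorb a hd₀)
  have hL₁ := isLattice_of_absorb a _ (lattice_fg a h₁) (lattice_absorb a hd₁)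
  have hmap : ((lattice a h₀).restrictScalars (localRing a)).map
      (((Matrix.mulVecLin (h₁ * h₀⁻¹)).restrictScalars (RatFunc k)).restrictScalars
        (localRing a)) = (lattice a h₁).restrictScalars (localRing a) := by
    have h1 := lattice_map a (h₁ * h₀⁻¹) h₀
    rw [Matrix.mul_assoc, Matrix.nonsing_inv_mul _ (isUnit_iff_ne_zero.mpr hd₀), Matrix.mul_one,
      ← lattice_eq_range] at h1
    rw [← h1]
    rfl
  have h2 := ordAt_det_le a _ _ hle ((Matrix.mulVecLin (h₁ * h₀⁻¹)).restrictScalars (RatFunc k))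
    hmap hc
  rw [LinearMap.det_restrictScalars] at h2
  have h3 : LinearMap.det (Matrix.mulVecLin (h₁ * h₀⁻¹)) = h₁.det * h₀.det⁻¹ := by
    rw [← Matrix.toLin'_apply', LinearMap.det_toLin', Matrix.det_mul, Matrix.det_nonsing_inv,
      Ring.inverse_eq_inv']
  rw [h3] at h2
  change ordOver a (h₁.det * h₀.det⁻¹) ≤ c at h2
  rw [ordOver_mul a hd₁ (inv_ne_zero hd₀), ordOver_inv a hd₀] at h2
  omega

lemma codimLE_self (V : Type) [AddCommGroup V] [Module k V] (N : Submodule k V) :
    CodimLE k (N : Set V) N 0 := by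
  intro ι _ v hv hind
  rw [Nat.le_zero, Fintype.card_eq_zero_iff]
  by_contra hne
  rw [not_isEmpty_iff] at hne
  obtain ⟨i⟩ := hne
  have h1 := hind (fun _ => 1) (N.sum_mem fun i _ => N.smul_mem _ (hv i))
  exact one_ne_zero (congrFun h1 i)

lemma ordOver_det_eq {r : ℕ} (a : Option k) {h₀ h₁ : Matrix (Fin r) (Fin r) K}
    (hd₀ : h₀.det ≠ 0) (hd₁ : h₁.det ≠ 0) (he : lattice a h₁ = lattice a h₀) :
    ordOver a h₁.det = ordOver a h₀.det := by
  have h1 : CodimLE k (lattice a h₀ : Set (Fin r → K)) (lattice a h₁) 0 := by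
    rw [he]
    exact codimLE_self _ ((lattice a h₀).restrictScalars k)
  have h2 : CodimLE k (lattice a h₁ : Set (Fin r → K)) (lattice a h₀) 0 := by
    rw [he]
    exact codimLE_self _ ((lattice a h₀).restrictScalars k)
  have h3 := ordOver_det_le a hd₀ hd₁ he.le h1
  have h4 := ordOver_det_le a hd₁ hd₀ he.ge h2
  push_cast at h3 h4
  omega

end

end Pool.Agent.Helper38.Scroll
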