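import Pool.Agent.Helper38.Scroll.P4

/-!
# Vector bundles on the curve and the degrees of their quotients
-/

set_option linter.unusedSectionVars false

namespace Pool.Agent.Helper38.Scroll

open Polynomial Matrix Module

section

variable {k K : Type} [Field k] [Field K] [Algebra (RatFunc k) K] [Algebra k K]
  [IsScalarTower k (RatFunc k) K]

variable [IsAlgClosed k] [CharZero k] [FiniteDimensional (RatFunc k) K]

lemma matrix_cofinite {m n : ℕ} (A : Matrix (Fin m) (Fin n) K) :
    {a : Option k | ∃ i j, A i j ∉ regRing k K a}.Finite := by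
  have h : {a : Option k | ∃ i j, A i j ∉ regRing k K a} =
      ⋃ i : Fin m, ⋃ j : Fin n, {a : Option k | A i j ∉ regRing k K a} := by
    ext a
    simp
  rw [h]
  exact Set.finite_iUnion fun i => Set.finite_iUnion fun j => regRing_cofinite _

lemma opMap_mem_one {m n : ℕ} {a : Option k} {A : Matrix (Fin m) (Fin n) K}
    (hA : ∀ i j, A i j ∈ regRing k K a) (v : Fin n → regRing k K a) (i : Fin m) :
    opMap a A v i ∈ regRing k K a := by
  rw [opMap_apply, mulVec, dotProduct]
  exact Subalgebra.sum_mem _ fun j _ => Subalgebra.mul_mem _ (hA i j) (v j).2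

lemma mem_lattice_one {r : ℕ} (a : Option k) (v : Fin r → K) :
    v ∈ lattice a (1 : Matrix (Fin r) (Fin r) K) ↔ ∀ i, v i ∈ regRing k K a := by
  rw [lattice_eq_range, LinearMap.mem_range]
  constructor
  · rintro ⟨w, rfl⟩ i
    rw [opMap_apply, one_mulVec]
    exact (w i).2
  · intro h
    refine ⟨fun i => ⟨v i, h i⟩, ?_⟩
    rw [opMap_apply, one_mulVec]

/-- The support of the degree of a quotient bundle is finite. -/
lemma quotient_support_finite {r n : ℕ} {g : Option k → Matrix (Fin n) (Fin n) K}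
    (hg : IsBundle g) {A : Matrix (Fin r) (Fin n) K} {R : Matrix (Fin n) (Fin r) K}
    (hAR : A * R = 1) {h : Option k → Matrix (Fin r) (Fin r) K} (hh : IsQuotientBundle g A h) :
    {a | ordOver a (h a).det ≠ 0}.Finite := by
  refine ((hg.2.union (matrix_cofinite (k := k) A)).union (matrix_cofinite (k := k) R)).subset ?_
  intro a ha
  by_contra hcon
  simp only [Set.mem_union, Set.mem_ofPred_eq, not_or, not_not, not_exists] at hcon
  obtain ⟨⟨h1, h2⟩, h3⟩ := hcon
  apply ha
  have h4 : lattice a (h a) = lattice a (1 : Matrix (Fin r) (Fin r) K) := by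
    rw [(hh a).2, h1]
    ext v
    rw [mem_lattice_one, Submodule.mem_map]
    constructor
    · rintro ⟨w, hw, rfl⟩ i
      rw [mem_lattice_one] at hw
      exact opMap_mem_one h2 (fun j => ⟨w j, hw j⟩) i
    · intro hv
      refine ⟨R *ᵥ v, ?_, ?_⟩
      · rw [mem_lattice_one]
        intro i
        exact opMap_mem_one h3 (fun j => ⟨v j, hv j⟩) i
      · change A *ᵥ (R *ᵥ v) = v
        rw [mulVec_mulVec, hAR, one_mulVec]
  rw [ordOver_det_eq a (by rw [det_one]; exact one_ne_zero) (hh a).1 h4, det_one, ordOver_one]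

lemma isQuotientBundle_self {n : ℕ} {g : Option k → Matrix (Fin n) (Fin n) K}
    (hg : IsBundle g) : IsQuotientBundle g 1 g := by
  intro a
  refine ⟨hg.1 a, ?_⟩
  rw [lattice_map, Matrix.one_mul, lattice_eq_range]

/-- The image of a submodule of the integral vectors under a matrix with a right inverse
absorbs. -/
lemma opMap_absorb {r n : ℕ} (a : Option k) {M : Matrix (Fin r) (Fin n) K}
    {R : Matrix (Fin n) (Fin r) K} (hMR : M * R = 1)
    (Λ : Submodule (regRing k K a) (Fin n → regRing k K a))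
    (hΛ : ∀ v : Fin n → regRing k K a, ∃ m : ℕ,
      (⟨_, pow_mem (unifAt_mem a) m⟩ : localRing a) • v ∈ Λ) (y : Fin r → K) :
    ∃ m : ℕ, (unifAt a) ^ m • y ∈ Λ.map (opMap a M) := by
  obtain ⟨m₁, hm₁⟩ := vec_absorb a (R *ᵥ y)
  obtain ⟨m₂, hm₂⟩ := hΛ (fun i => ⟨_, hm₁ i⟩)
  refine ⟨m₂ + m₁, _, hm₂, ?_⟩
  rw [opMap_apply]
  have h1 : (fun i => (((⟨_, pow_mem (unifAt_mem a) m₂⟩ : localRing a) •
      (fun i => (⟨_, hm₁ i⟩ : regRing k K a))) i : K)) =
      (unifAt a) ^ (m₂ + m₁) • (R *ᵥ y) := by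
    funext i
    change (unifAt a) ^ m₂ • ((unifAt a) ^ m₁ • (R *ᵥ y) i) = _
    rw [smul_smul, ← pow_add]
    rfl
  rw [h1, mulVec_smul, mulVec_mulVec, hMR, one_mulVec]

lemma exists_frame_opMap {r n : ℕ} (a : Option k) {M : Matrix (Fin r) (Fin n) K}
    {R : Matrix (Fin n) (Fin r) K} (hMR : M * R = 1)
    (Λ : Submodule (regRing k K a) (Fin n → regRing k K a))
    (hΛ : ∀ v : Fin n → regRing k K a, ∃ m : ℕ,
      (⟨_, pow_mem (unifAt_mem a) m⟩ : localRing a) • v ∈ Λ) :
    ∃ h : Matrix (Fin r) (Fin r) K, h.det ≠ 0 ∧ lattice a h = Λ.map (opMap a M) := by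
  apply exists_frame
  · exact Submodule.FG.map _ (IsNoetherian.noetherian Λ)
  · exact opMap_absorb a hMR Λ hΛ

/-- Every surjection gives a quotient bundle. -/
lemma exists_quotientBundle {r n : ℕ} {g : Option k → Matrix (Fin n) (Fin n) K}
    (hg : IsBundle g) {A : Matrix (Fin r) (Fin n) K} {R : Matrix (Fin n) (Fin r) K}
    (hAR : A * R = 1) : ∃ h, IsQuotientBundle g A h := by
  have h1 : ∀ a, ∃ h : Matrix (Fin r) (Fin r) K, h.det ≠ 0 ∧ lattice a h =
      (lattice a (g a)).map ((Matrix.mulVecLin A).restrictScalars (regRing k K a)) := by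
    intro a
    have hR : A * g a * ((g a)⁻¹ * R) = 1 := by
      rw [Matrix.mul_assoc, ← Matrix.mul_assoc (g a),
        Matrix.mul_nonsing_inv _ (isUnit_iff_ne_zero.mpr (hg.1 a)), Matrix.one_mul, hAR]
    obtain ⟨h, hd, hl⟩ := exists_frame_opMap a hR ⊤ (fun v => ⟨0, trivial⟩)
    refine ⟨h, hd, ?_⟩
    rw [hl, lattice_map, Submodule.map_top]
  choose h hh using h1
  exact ⟨h, hh⟩

end

end Pool.Agent.Helper38.Scroll
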