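import Pool.Agent.Helper38.Scroll.P5

/-!
# Rank factorization and duality for the trace
-/

set_option linter.unusedSectionVars false

namespace Pool.Agent.Helper38.Scroll

open Polynomial Matrix Module

/-- Rank factorization. -/
lemma exists_rank_factorization {K : Type} [Field K] {n : ℕ} (S : Matrix (Fin n) (Fin n) K)
    (hS : S ≠ 0) : ∃ (r : ℕ) (_ : 0 < r) (A A' : Matrix (Fin r) (Fin n) K)
      (R R' : Matrix (Fin n) (Fin r) K), A * R = 1 ∧ A' * R' = 1 ∧ S = Aᵀ * A' := by
  classical
  let f := Matrix.mulVecLin S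
  set r := finrank K (LinearMap.range f) with hr
  have hpos : 0 < r := by
    rw [hr, Module.finrank_pos_iff_exists_ne_zero]
    by_contra hcon
    push Not at hcon
    apply hS
    ext i j
    have h1 := hcon ⟨f (Pi.single j 1), ⟨_, rfl⟩⟩
    have h2 := congrFun (congrArg Subtype.val h1) i
    simpa [f, Matrix.mulVec_single_one] using h2
  let e : LinearMap.range f ≃ₗ[K] (Fin r → K) :=
    LinearEquiv.ofFinrankEq _ _ (by rw [Module.finrank_fin_fun])
  let p : (Fin n → K) →ₗ[K] (Fin r → K) := e.toLinearMap ∘ₗ f.rangeRestrict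
  let q : (Fin r → K) →ₗ[K] (Fin n → K) := (LinearMap.range f).subtype ∘ₗ e.symm.toLinearMap
  have hqp : q ∘ₗ p = f := by
    ext v i
    simp [p, q]
  have hp : Function.Surjective p :=
    e.surjective.comp (LinearMap.surjective_rangeRestrict f)
  have hq : Function.Injective q :=
    (Submodule.injective_subtype _).comp e.symm.injective
  obtain ⟨s, hs⟩ := p.exists_rightInverse_of_surjective (LinearMap.range_eq_top.mpr hp)
  obtain ⟨t, ht⟩ := q.exists_leftInverse_of_injective (LinearMap.ker_eq_bot.mpr hq)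
  refine ⟨r, hpos, (LinearMap.toMatrix' q)ᵀ, LinearMap.toMatrix' p, (LinearMap.toMatrix' t)ᵀ,
    LinearMap.toMatrix' s, ?_, ?_, ?_⟩
  · rw [← Matrix.transpose_mul, ← LinearMap.toMatrix'_comp, ht, LinearMap.toMatrix'_id,
      Matrix.transpose_one]
  · rw [← LinearMap.toMatrix'_comp, hs, LinearMap.toMatrix'_id]
  · rw [Matrix.transpose_transpose, ← LinearMap.toMatrix'_comp, hqp]
    exact (LinearMap.toMatrix'_toLin' S).symm

/-- Linear functionals are traces. -/
lemma exists_trace_repr {F K : Type} [Field F] [Field K] [Algebra F K] [FiniteDimensional F K]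
    [Algebra.IsSeparable F K] (l : K →ₗ[F] F) : ∃ s : K, ∀ c, l c = Algebra.trace F K (s * c) := by
  let e := (Algebra.traceForm F K).toDual (traceForm_nondegenerate F K)
  refine ⟨e.symm l, fun c => ?_⟩
  have h1 : e (e.symm l) c = l c := by rw [LinearEquiv.apply_symm_apply]
  rw [← h1]
  simp only [e, LinearMap.BilinForm.toDual_def, Algebra.traceForm_apply]

end Pool.Agent.Helper38.Scroll
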