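import Pool.Agent.Helper38.Scroll.P6

/-!
# The lattice family of `Sym² E ⊗ K_C ⊗ det E` with conditions at finitely many points
-/

set_option linter.unusedSectionVars false

namespace Pool.Agent.Helper38.Scroll

open Polynomial Matrix Module

section

variable {k K : Type} [Field k] [Field K] [Algebra (RatFunc k) K] [Algebra k K]
  [IsScalarTower k (RatFunc k) K]

variable [IsAlgClosed k] [CharZero k] [FiniteDimensional (RatFunc k) K] {n : ℕ}

/-- The twisted congruence `T ↦ (w det g) g T gᵀ`. -/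
noncomputable def locMap (a : Option k) (w : K) (g : Matrix (Fin n) (Fin n) K) :
    Matrix (Fin n) (Fin n) (regRing k K a) →ₗ[regRing k K a] Matrix (Fin n) (Fin n) K where
  toFun T := (w * g.det) • (g * T.map (algebraMap (regRing k K a) K) * gᵀ)
  map_add' T T' := by
    have : (T + T').map (algebraMap (regRing k K a) K) = T.map (algebraMap (regRing k K a) K) +
        T'.map (algebraMap (regRing k K a) K) := by
      ext i j; simp
    rw [this, Matrix.mul_add, Matrix.add_mul, smul_add]
  map_smul' c T := by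
    have : (c • T).map (algebraMap (regRing k K a) K) =
        (c : K) • T.map (algebraMap (regRing k K a) K) := by
      ext i j; rfl
    rw [this, Matrix.mul_smul, Matrix.smul_mul, smul_comm]
    rfl

lemma locMap_apply (a : Option k) (w : K) (g : Matrix (Fin n) (Fin n) K)
    (T : Matrix (Fin n) (Fin n) (regRing k K a)) :
    locMap a w g T = (w * g.det) • (g * T.map (algebraMap (regRing k K a) K) * gᵀ) := rfl

lemma locMap_vecMulVec (a : Option k) (w : K) (g : Matrix (Fin n) (Fin n) K)
    (v y : Fin n → regRing k K a) :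
    locMap a w g (vecMulVec v y) = (w * g.det) • vecMulVec (opMap a g v) (opMap a g y) := by
  rw [locMap_apply, opMap_apply, opMap_apply]
  congr 1
  have h1 : (vecMulVec v y).map (algebraMap (regRing k K a) K) =
      vecMulVec (fun i => (v i : K)) (fun i => (y i : K)) := by
    ext i j
    simp [vecMulVec_apply]
  rw [h1, mul_vecMulVec, vecMulVec_mul, vecMul_transpose]

/-- The submodule of matrices generated by `v yᵀ` and `y vᵀ`, `v ∈ Λ`. -/
noncomputable def Jmod {a : Option k} (Λ : Submodule (regRing k K a) (Fin n → regRing k K a)) :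
    Submodule (regRing k K a) (Matrix (Fin n) (Fin n) (regRing k K a)) :=
  Submodule.span _ {X | ∃ v ∈ Λ, ∃ y, X = vecMulVec v y ∨ X = vecMulVec y v}

lemma vecMulVec_mem_J {a : Option k} {Λ : Submodule (regRing k K a) (Fin n → regRing k K a)}
    {v : Fin n → regRing k K a} (hv : v ∈ Λ) (y : Fin n → regRing k K a) :
    vecMulVec v y ∈ Jmod Λ :=
  Submodule.subset_span ⟨v, hv, y, Or.inl rfl⟩

lemma Jmod_transpose {a : Option k} {Λ : Submodule (regRing k K a) (Fin n → regRing k K a)}
    {T : Matrix (Fin n) (Fin n) (regRing k K a)} (hT : T ∈ Jmod Λ) : Tᵀ ∈ Jmod Λ := by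
  induction hT using Submodule.span_induction with
  | mem X hX =>
    obtain ⟨v, hv, y, rfl | rfl⟩ := hX
    · exact Submodule.subset_span ⟨v, hv, y, Or.inr (by ext i j; simp [vecMulVec_apply, mul_comm])⟩
    · exact Submodule.subset_span ⟨v, hv, y, Or.inl (by ext i j; simp [vecMulVec_apply, mul_comm])⟩
  | zero => rw [Matrix.transpose_zero]; exact Submodule.zero_mem _
  | add X Y _ _ hX hY => rw [Matrix.transpose_add]; exact Submodule.add_mem _ hX hY
  | smul c X _ hX => rw [Matrix.transpose_smul]; exact Submodule.smul_mem _ _ hX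

lemma matrix_eq_sum_vecMulVec {R : Type} [CommRing R] (T : Matrix (Fin n) (Fin n) R) :
    T = ∑ i, ∑ j, T i j • vecMulVec (Pi.single i (1 : R)) (Pi.single j 1) := by
  ext p q
  rw [Matrix.sum_apply]
  simp only [Matrix.sum_apply, Matrix.smul_apply, vecMulVec_apply, Pi.single_apply, smul_eq_mul]
  rw [Finset.sum_eq_single p, Finset.sum_eq_single q]
  · simp
  · intro j _ hj; simp [hj.symm]
  · simp
  · intro i _ hi; simp [hi.symm]
  · simp

lemma Jmod_top {a : Option k} {Λ : Submodule (regRing k K a) (Fin n → regRing k K a)}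
    (hΛ : Λ = ⊤) : Jmod Λ = ⊤ := by
  rw [eq_top_iff]
  intro T _
  rw [matrix_eq_sum_vecMulVec T]
  exact Submodule.sum_mem _ fun i _ => Submodule.sum_mem _ fun j _ => Submodule.smul_mem _ _
    (vecMulVec_mem_J (by rw [hΛ]; trivial) _)

/-- The conditions at the points of the curve: submodules of the stalks of (the trivialization of)
the bundle. -/
structure Conditions (k K : Type) [Field k] [Field K] [Algebra (RatFunc k) K] [Algebra k K]
    [IsScalarTower k (RatFunc k) K] (n : ℕ) where
  Λ : ∀ a : Option k, Submodule (regRing k K a) (Fin n → regRing k K a)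
  c : Option k → ℕ
  fin : {a | Λ a ≠ ⊤}.Finite
  cfin : {a | c a ≠ 0}.Finite
  absorb : ∀ a (v : Fin n → regRing k K a), ∃ m : ℕ,
      (⟨_, pow_mem (unifAt_mem a) m⟩ : localRing a) • v ∈ Λ a
  codim : ∀ a, CodimLE k (Set.univ : Set (Fin n → regRing k K a)) (Λ a) (c a)

variable (Q : Conditions k K n)

lemma Jmod_absorb (a : Option k) (T : Matrix (Fin n) (Fin n) (regRing k K a)) :
    ∃ m : ℕ, (⟨_, pow_mem (unifAt_mem a) m⟩ : localRing a) • T ∈ Jmod (Q.Λ a) := by
  choose m hm using fun i : Fin n => Q.absorb a (Pi.single i 1)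
  refine ⟨∑ i, m i, ?_⟩
  have h1 : ∀ i, (⟨_, pow_mem (unifAt_mem a) (∑ i, m i)⟩ : localRing a) •
      (Pi.single i (1 : regRing k K a) : Fin n → regRing k K a) ∈ Q.Λ a := by
    intro i
    have h2 : m i ≤ ∑ i, m i := Finset.single_le_sum (fun _ _ => Nat.zero_le _) (Finset.mem_univ i)
    obtain ⟨d, hd⟩ := Nat.exists_eq_add_of_le' h2
    have h3 : (⟨_, pow_mem (unifAt_mem a) (∑ i, m i)⟩ : localRing a) =
        (⟨_, pow_mem (unifAt_mem a) d⟩ : localRing a) *
          (⟨_, pow_mem (unifAt_mem a) (m i)⟩ : localRing a) := by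
      apply Subtype.ext
      change unifAt a ^ (∑ i, m i) = unifAt a ^ d * unifAt a ^ (m i)
      rw [hd, pow_add]
    rw [h3, mul_smul]
    exact (Q.Λ a).smul_of_tower_mem _ (hm i)
  rw [matrix_eq_sum_vecMulVec T, Finset.smul_sum]
  refine Submodule.sum_mem _ fun i _ => ?_
  rw [Finset.smul_sum]
  refine Submodule.sum_mem _ fun j _ => ?_
  rw [smul_comm]
  apply Submodule.smul_mem
  have h4 : (⟨_, pow_mem (unifAt_mem a) (∑ i, m i)⟩ : localRing a) •
      vecMulVec (Pi.single i (1 : regRing k K a)) (Pi.single j (1 : regRing k K a)) =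
      vecMulVec ((⟨_, pow_mem (unifAt_mem a) (∑ i, m i)⟩ : localRing a) •
      (Pi.single i (1 : regRing k K a) : Fin n → regRing k K a)) (Pi.single j 1) := by
    rw [smul_vecMulVec]
  rw [h4]
  exact vecMulVec_mem_J (h1 i) _

/-- The lattices. -/
noncomputable def Wlat (g : Option k → Matrix (Fin n) (Fin n) K) (w : Option k → K)
    (a : Option k) : Submodule (localRing a) (Matrix (Fin n) (Fin n) K) :=
  ((Jmod (Q.Λ a)).map (locMap a (w a) (g a))).restrictScalars (localRing a)

lemma mem_Wlat {g : Option k → Matrix (Fin n) (Fin n) K} {w : Option k → K} {a : Option k}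
    {X : Matrix (Fin n) (Fin n) K} :
    X ∈ Wlat Q g w a ↔ ∃ T ∈ Jmod (Q.Λ a), locMap a (w a) (g a) T = X := Iff.rfl

omit [Algebra (RatFunc k) K] [Algebra k K] [IsScalarTower k (RatFunc k) K] [IsAlgClosed k]
  [CharZero k] [FiniteDimensional (RatFunc k) K] in
lemma locMap_inv {w : K} (hw : w ≠ 0) {g : Matrix (Fin n) (Fin n) K}
    (hg : g.det ≠ 0) (X : Matrix (Fin n) (Fin n) K) :
    X = (w * g.det) • (g * ((w * g.det)⁻¹ • (g⁻¹ * X * g⁻¹ᵀ)) * gᵀ) := by
  have hu : IsUnit g.det := isUnit_iff_ne_zero.mpr hg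
  have h1 : g * (g⁻¹ * X * g⁻¹ᵀ) * gᵀ = X := by
    have h2 : g⁻¹ᵀ * gᵀ = 1 := by
      rw [← Matrix.transpose_mul, Matrix.mul_nonsing_inv _ hu, Matrix.transpose_one]
    rw [Matrix.mul_assoc g⁻¹ X, ← Matrix.mul_assoc g, Matrix.mul_nonsing_inv _ hu, Matrix.one_mul,
      Matrix.mul_assoc, h2, Matrix.mul_one]
  rw [Matrix.mul_smul, Matrix.smul_mul, smul_smul, mul_inv_cancel₀ (mul_ne_zero hw hg), one_smul,
    h1]

lemma regRing_prod_mem {a : Option k} {m : ℕ} {A : Matrix (Fin m) (Fin m) K}
    (hA : ∀ i j, A i j ∈ regRing k K a) : A.det ∈ regRing k K a := by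
  have h1 : A = (Matrix.of fun i j => (⟨A i j, hA i j⟩ : regRing k K a)).map
      (algebraMap (regRing k K a) K) := by
    ext i j; rfl
  have h2 := (RingHom.map_det (algebraMap (regRing k K a) K)
    (Matrix.of fun i j => (⟨A i j, hA i j⟩ : regRing k K a))).symm
  rw [RingHom.mapMatrix_apply, ← h1] at h2
  rw [h2]
  exact Subtype.property _

/-- A trivial stalk has an integral frame with integral inverse. -/
lemma integral_of_lattice_eq {a : Option k} {g : Matrix (Fin n) (Fin n) K} (hg : g.det ≠ 0)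
    (h : lattice a g = lattice a 1) :
    (∀ i j, g i j ∈ regRing k K a) ∧ (∀ i j, g⁻¹ i j ∈ regRing k K a) := by
  constructor
  · intro i j
    have h1 : gᵀ j ∈ lattice a g := Submodule.subset_span ⟨j, rfl⟩
    rw [h, mem_lattice_one] at h1
    exact h1 i
  · intro i j
    have h1 : (Pi.single j (1 : K) : Fin n → K) ∈ lattice a (1 : Matrix (Fin n) (Fin n) K) := by
      rw [mem_lattice_one]
      intro l
      by_cases hl : l = j
      · subst hl; rw [Pi.single_eq_same]; exact Subalgebra.one_mem _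
      · rw [Pi.single_eq_of_ne hl]; exact Subalgebra.zero_mem _
    rw [← h, lattice_eq_range] at h1
    obtain ⟨v, hv⟩ := h1
    rw [opMap_apply] at hv
    have h2 : (fun i => (v i : K)) = g⁻¹ *ᵥ Pi.single j 1 := by
      rw [← hv, mulVec_mulVec, Matrix.nonsing_inv_mul _ (isUnit_iff_ne_zero.mpr hg), one_mulVec]
    have h3 := congrFun h2 i
    rw [Matrix.mulVec_single_one] at h3
    change (v i : K) = g⁻¹ i j at h3
    rw [← h3]
    exact (v i).2

/-- At a finite point, the inverse of a canonical generator is regular. -/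
lemma canonical_inv_mem {a : k} {w : K} (hw : IsCanonicalGenerator (some a) w) :
    w⁻¹ ∈ regRing k K (some a) := by
  have h1 := (hw.2 1).mp ?_
  · obtain ⟨b, hb, hb1⟩ := h1
    have : w⁻¹ = b := by
      rw [inv_eq_iff_eq_inv]
      exact eq_inv_of_mul_eq_one_left hb1.symm
    rw [this]
    exact hb
  · intro b hb
    rw [one_mul]
    change 1 * _ ∈ _
    rw [one_mul]
    exact trace_mem_localRing hb

/-- The lattice family. -/
noncomputable def latFam {g : Option k → Matrix (Fin n) (Fin n) K} (hg : IsBundle g)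
    {w : Option k → K} (hw : ∀ a, IsCanonicalGenerator a (w a)) :
    LatticeFamily k (Matrix (Fin n) (Fin n) K) where
  W := Wlat Q g w
  fin := by
    intro u
    refine (((Q.fin.union hg.2).union (Set.finite_singleton none)).union
      (matrix_cofinite (k := k) u)).subset ?_
    intro a ha
    by_contra hcon
    simp only [Set.mem_union, Set.mem_ofPred_eq, not_or, not_not, not_exists,
      Set.mem_singleton_iff] at hcon
    obtain ⟨⟨⟨h1, h2⟩, h3⟩, h4⟩ := hcon
    apply ha
    obtain ⟨a, rfl⟩ := Option.ne_none_iff_exists'.mp h3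
    obtain ⟨h5, h6⟩ := integral_of_lattice_eq (hg.1 _) h2
    have hwi := canonical_inv_mem (hw (some a))
    have hdet : ((g (some a)).det)⁻¹ ∈ regRing k K (some a) := by
      have h7 : ((g (some a)).det)⁻¹ = ((g (some a))⁻¹).det := by
        rw [Matrix.det_nonsing_inv, Ring.inverse_eq_inv']
      rw [h7]
      exact regRing_prod_mem h6
    have hT : ∀ i j, ((w (some a) * (g (some a)).det)⁻¹ •
        ((g (some a))⁻¹ * u * (g (some a))⁻¹ᵀ)) i j ∈ regRing k K (some a) := by
      intro i j
      rw [Matrix.smul_apply, smul_eq_mul, mul_inv]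
      refine Subalgebra.mul_mem _ (Subalgebra.mul_mem _ hwi hdet) ?_
      rw [Matrix.mul_apply]
      refine Subalgebra.sum_mem _ fun l _ => Subalgebra.mul_mem _ ?_ (h6 _ _)
      rw [Matrix.mul_apply]
      exact Subalgebra.sum_mem _ fun l _ => Subalgebra.mul_mem _ (h6 _ _) (h4 _ _)
    refine ⟨Matrix.of fun i j => ⟨_, hT i j⟩, ?_, ?_⟩
    · rw [Jmod_top h1]; trivial
    · rw [locMap_apply]
      have h8 := locMap_inv (hw (some a)).1 (hg.1 (some a)) u
      exact h8.symm
  absorb := by
    intro a u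
    have hw0 := (hw a).1
    have hg0 := hg.1 a
    set T := (w a * (g a).det)⁻¹ • ((g a)⁻¹ * u * (g a)⁻¹ᵀ) with hT
    obtain ⟨m₁, hm₁⟩ : ∃ m : ℕ, ∀ i j, (unifAt a) ^ m • T i j ∈ regRing k K a := by
      choose m hm using fun i => vec_absorb (k := k) a (T i)
      refine ⟨∑ i, m i, fun i j => ?_⟩
      have h1 : m i ≤ ∑ i, m i :=
        Finset.single_le_sum (fun _ _ => Nat.zero_le _) (Finset.mem_univ i)
      obtain ⟨d, hd⟩ := Nat.exists_eq_add_of_le' h1
      rw [hd, pow_add, mul_smul]
      exact smul_regRing_mem (pow_mem (unifAt_mem a) d) (hm i j)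
    obtain ⟨m₂, hm₂⟩ := Jmod_absorb Q a (Matrix.of fun i j => ⟨_, hm₁ i j⟩)
    refine ⟨m₂ + m₁, _, hm₂, ?_⟩
    rw [locMap_apply]
    have h1 : ((⟨_, pow_mem (unifAt_mem a) m₂⟩ : localRing a) •
        (Matrix.of fun i j => (⟨_, hm₁ i j⟩ : regRing k K a))).map
          (algebraMap (regRing k K a) K) = (unifAt a) ^ (m₂ + m₁) • T := by
      ext i j
      change (unifAt a) ^ m₂ • ((unifAt a) ^ m₁ • T i j) = _
      rw [smul_smul, ← pow_add]
      rfl
    rw [h1, Matrix.mul_smul, Matrix.smul_mul, smul_comm, hT,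
      ← locMap_inv hw0 hg0 u]

end

end Pool.Agent.Helper38.Scroll
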