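import Pool.Agent.Helper38.Scroll.P7

/-!
# The vanishing theorem
-/

set_option linter.unusedSectionVars false

namespace Pool.Agent.Helper38.Scroll

open Polynomial Matrix Module

section

variable {k K : Type} [Field k] [Field K] [Algebra (RatFunc k) K] [Algebra k K]
  [IsScalarTower k (RatFunc k) K]

variable [IsAlgClosed k] [CharZero k] [FiniteDimensional (RatFunc k) K] {n : ℕ}

omit [Algebra (RatFunc k) K] [Algebra k K] [IsScalarTower k (RatFunc k) K] [IsAlgClosed k]
  [CharZero k] [FiniteDimensional (RatFunc k) K] in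
lemma rank_of_right_inv {r : ℕ} {A : Matrix (Fin r) (Fin n) K} {R : Matrix (Fin n) (Fin r) K}
    (h : A * R = 1) : A.rank = r := by
  apply le_antisymm
  · have := A.rank_le_height
    simpa using this
  · have h1 := Matrix.rank_mul_le_left A R
    rw [h, Matrix.rank_one] at h1
    simpa using h1

lemma X_sq_mul_mem {f : RatFunc k} (hf : f = 0 ∨ 2 ≤ ordAt none f) :
    RatFunc.X ^ 2 * f ∈ localRing (none : Option k) := by
  rcases hf with rfl | hf
  · rw [mul_zero]; exact Subalgebra.zero_mem _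
  · have hf0 : f ≠ 0 := by
      rintro rfl
      rw [ordAt_zero] at hf
      omega
    have hX : (RatFunc.X : RatFunc k) ≠ 0 := RatFunc.X_ne_zero
    rw [mem_localRing_of_ne (mul_ne_zero (pow_ne_zero _ hX) hf0),
      ordAt_mul _ (pow_ne_zero _ hX) hf0, ordAt_pow _ hX]
    have h1 : ordAt none (RatFunc.X : RatFunc k) = -1 := by
      simp [ordAt, RatFunc.intDegree_X]
    rw [h1]
    push_cast
    omega

/-- The pairing of matrices. -/
def pair (S X : Matrix (Fin n) (Fin n) K) : K := ∑ i, ∑ j, S i j * X i j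

omit [Algebra (RatFunc k) K] [Algebra k K] [IsScalarTower k (RatFunc k) K] [IsAlgClosed k]
  [CharZero k] [FiniteDimensional (RatFunc k) K] in
lemma pair_smul (S X : Matrix (Fin n) (Fin n) K) (c : K) : pair S (c • X) = c * pair S X := by
  unfold pair
  rw [Finset.mul_sum]
  apply Finset.sum_congr rfl
  intro i _
  rw [Finset.mul_sum]
  apply Finset.sum_congr rfl
  intro j _
  rw [Matrix.smul_apply, smul_eq_mul]
  ring

omit [Algebra (RatFunc k) K] [Algebra k K] [IsScalarTower k (RatFunc k) K] [IsAlgClosed k]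
  [CharZero k] [FiniteDimensional (RatFunc k) K] in
lemma pair_vecMulVec (S : Matrix (Fin n) (Fin n) K) (p q : Fin n → K) :
    pair S (vecMulVec p q) = p ⬝ᵥ (S *ᵥ q) := by
  unfold pair
  simp only [dotProduct, mulVec, vecMulVec_apply]
  apply Finset.sum_congr rfl
  intro i _
  rw [Finset.mul_sum]
  apply Finset.sum_congr rfl
  intro j _
  ring

lemma exists_pair_repr (l : Matrix (Fin n) (Fin n) K →ₗ[RatFunc k] RatFunc k) :
    ∃ S : Matrix (Fin n) (Fin n) K, ∀ X, l X = Algebra.trace (RatFunc k) K (pair S X) := by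
  have h1 : ∀ i j, ∃ s : K, ∀ c, l (Matrix.single i j c) = Algebra.trace (RatFunc k) K (s * c) := by
    intro i j
    obtain ⟨s, hs⟩ := exists_trace_repr
      (l ∘ₗ (Matrix.singleLinearMap (RatFunc k) i j : K →ₗ[RatFunc k] Matrix (Fin n) (Fin n) K))
    exact ⟨s, fun c => by rw [← hs c]; rfl⟩
  choose S hS using h1
  refine ⟨Matrix.of S, fun X => ?_⟩
  conv_lhs => rw [matrix_eq_sum_single X]
  rw [map_sum, pair, map_sum]
  apply Finset.sum_congr rfl
  intro i _
  rw [map_sum, map_sum]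
  apply Finset.sum_congr rfl
  intro j _
  rw [hS]
  rfl

variable (Q : Conditions k K n)

/-- **The vanishing theorem.** -/
theorem vanishing {g : Option k → Matrix (Fin n) (Fin n) K} (hg : IsBundle g)
    {w : Option k → K} (hw : ∀ a, IsCanonicalGenerator a (w a)) (hpos : HasPositiveQuotients g)
    (hc : ∑ᶠ a, Q.c a ≤ 2) (u : Matrix (Fin n) (Fin n) K) :
    u ∈ (latFam Q hg hw).W0 ⊔ (latFam Q hg hw).Wi := by
  by_contra hu
  obtain ⟨l, hl0, hlf, hli⟩ := (latFam Q hg hw).exists_functional ⟨u, hu⟩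
  obtain ⟨S, hS⟩ := exists_pair_repr l
  have hS0 : S ≠ 0 := by
    rintro rfl
    apply hl0
    ext1 X
    rw [hS]
    simp [pair]
  -- the pairing on the lattices
  have claim1 : ∀ a, ∀ X ∈ Wlat Q g w a, ∃ b ∈ regRing k K a, pair S X = w a * b := by
    intro a X hX
    apply ((hw a).2 (pair S X)).mp
    intro b hb
    have hbX : b • X ∈ Wlat Q g w a := by
      rw [mem_Wlat] at hX ⊢
      obtain ⟨T, hT, rfl⟩ := hX
      exact ⟨(⟨b, hb⟩ : regRing k K a) • T, Submodule.smul_mem _ _ hT, by rw [map_smul]; rfl⟩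
    have h1 : Algebra.trace (RatFunc k) K (pair S X * b) = l (b • X) := by
      rw [hS, pair_smul, mul_comm]
    rw [h1]
    cases a with
    | none => exact X_sq_mul_mem (hli _ hbX)
    | some a =>
      change 1 * _ ∈ _
      rw [one_mul]
      exact hlf a _ hbX
  have claim2 : ∀ a, ∀ v ∈ Q.Λ a, ∀ y : Fin n → regRing k K a,
      (g a).det * ((opMap a (g a) v) ⬝ᵥ (S *ᵥ opMap a (g a) y)) ∈ regRing k K a := by
    intro a v hv y
    obtain ⟨b, hb, hbe⟩ := claim1 a (locMap a (w a) (g a) (vecMulVec v y))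
      ⟨_, vecMulVec_mem_J hv y, rfl⟩
    rw [locMap_vecMulVec, pair_smul, pair_vecMulVec, mul_assoc] at hbe
    rw [mul_left_cancel₀ (hw a).1 hbe]
    exact hb
  obtain ⟨r, hr, A, A', R, R', hAR, hAR', hSA⟩ := exists_rank_factorization S hS0
  have claim3 : ∀ a, ∀ v ∈ Q.Λ a, ∀ y : Fin n → regRing k K a,
      (g a).det * ((opMap a (A * g a) v) ⬝ᵥ (opMap a (A' * g a) y)) ∈ regRing k K a := by
    intro a v hv y
    have h1 := claim2 a v hv y
    have h2 : (opMap a (g a) v) ⬝ᵥ (S *ᵥ opMap a (g a) y) =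
        (opMap a (A * g a) v) ⬝ᵥ (opMap a (A' * g a) y) := by
      simp only [opMap_apply]
      rw [hSA, ← mulVec_mulVec, ← mulVec_mulVec, ← mulVec_mulVec, Matrix.dotProduct_mulVec,
        Matrix.vecMul_transpose]
    rw [← h2]
    exact h1
  -- frames
  obtain ⟨H₀, hH₀⟩ := exists_quotientBundle hg hAR
  obtain ⟨H₂, hH₂⟩ := exists_quotientBundle hg hAR'
  have hH₁ : ∀ a, ∃ h : Matrix (Fin r) (Fin r) K, h.det ≠ 0 ∧
      lattice a h = (Q.Λ a).map (opMap a (A * g a)) := by
    intro a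
    have hR : A * g a * ((g a)⁻¹ * R) = 1 := by
      rw [Matrix.mul_assoc, ← Matrix.mul_assoc (g a),
        Matrix.mul_nonsing_inv _ (isUnit_iff_ne_zero.mpr (hg.1 a)), Matrix.one_mul, hAR]
    exact exists_frame_opMap a hR (Q.Λ a) (Q.absorb a)
  choose H₁ hH₁d hH₁l using hH₁
  have claim4 : ∀ a, 0 ≤ r * ordOver a (g a).det + ordOver a (H₁ a).det + ordOver a (H₂ a).det := by
    intro a
    have hent : ∀ i j, ((g a).det • ((H₁ a)ᵀ * H₂ a)) i j ∈ regRing k K a := by
      intro i j
      have h1 : (H₁ a)ᵀ i ∈ lattice a (H₁ a) := Submodule.subset_span ⟨i, rfl⟩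
      have h2 : (H₂ a)ᵀ j ∈ lattice a (H₂ a) := Submodule.subset_span ⟨j, rfl⟩
      rw [hH₁l] at h1
      rw [(hH₂ a).2, lattice_map] at h2
      obtain ⟨v, hv, hv'⟩ := h1
      obtain ⟨y, hy'⟩ := h2
      have h3 := claim3 a v hv y
      rw [hv', hy'] at h3
      rw [Matrix.smul_apply, Matrix.mul_apply, smul_eq_mul]
      exact h3
    have h1 := regRing_prod_mem hent
    rw [Matrix.det_smul, Fintype.card_fin, Matrix.det_mul, Matrix.det_transpose] at h1
    have hne : (g a).det ^ r * ((H₁ a).det * (H₂ a).det) ≠ 0 :=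
      mul_ne_zero (pow_ne_zero _ (hg.1 a)) (mul_ne_zero (hH₁d a) (hH₂ a).1)
    have h2 := ordOver_nonneg hne h1
    rw [ordOver_mul a (pow_ne_zero _ (hg.1 a)) (mul_ne_zero (hH₁d a) (hH₂ a).1),
      ordOver_mul a (hH₁d a) (hH₂ a).1, ordOver_pow a (hg.1 a)] at h2
    linarith
  have claim5 : ∀ a, ordOver a (H₁ a).det ≤ ordOver a (H₀ a).det + Q.c a := by
    intro a
    have h0 : lattice a (H₀ a) = LinearMap.range (opMap a (A * g a)) := by
      rw [(hH₀ a).2, lattice_map]
    apply ordOver_det_le a (hH₀ a).1 (hH₁d a)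
    · rw [hH₁l, h0]
      exact LinearMap.map_le_range
    · have h2 := (Q.codim a).image ((opMap a (A * g a)).restrictScalars k)
      rw [hH₁l, h0]
      rw [Set.image_univ] at h2
      exact h2
  -- the sum
  have hn : 0 < n := by
    by_contra hn
    have hn' : n = 0 := by omega
    subst hn'
    apply hS0
    ext i
    exact i.elim0
  have hdg : 0 < degree g :=
    hpos n hn 1 (by rw [Matrix.rank_one, Fintype.card_fin]) g (isQuotientBundle_self hg)
  have hd0 : 0 < degree H₀ := hpos r hr A (rank_of_right_inv hAR) H₀ hH₀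
  have hd2 : 0 < degree H₂ := hpos r hr A' (rank_of_right_inv hAR') H₂ hH₂
  have hfg : {a | ordOver a (g a).det ≠ 0}.Finite :=
    quotient_support_finite hg (by rw [Matrix.mul_one]) (isQuotientBundle_self hg)
  have hf0 : {a | ordOver a (H₀ a).det ≠ 0}.Finite := quotient_support_finite hg hAR hH₀
  have hf2 : {a | ordOver a (H₂ a).det ≠ 0}.Finite := quotient_support_finite hg hAR' hH₂
  set F := (((hfg.union hf0).union hf2).union Q.cfin).toFinset with hF
  have hmem : ∀ a, a ∈ F ↔ (((ordOver a (g a).det ≠ 0 ∨ ordOver a (H₀ a).det ≠ 0) ∨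
      ordOver a (H₂ a).det ≠ 0) ∨ Q.c a ≠ 0) := by
    intro a
    rw [hF, Set.Finite.mem_toFinset]
    rfl
  have e1 : degree g = -∑ a ∈ F, ordOver a (g a).det := by
    rw [degree, finsum_eq_sum_of_support_subset]
    intro a ha
    exact Finset.mem_coe.mpr ((hmem a).mpr (Or.inl (Or.inl (Or.inl ha))))
  have e2 : degree H₀ = -∑ a ∈ F, ordOver a (H₀ a).det := by
    rw [degree, finsum_eq_sum_of_support_subset]
    intro a ha
    exact Finset.mem_coe.mpr ((hmem a).mpr (Or.inl (Or.inl (Or.inr ha))))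
  have e3 : degree H₂ = -∑ a ∈ F, ordOver a (H₂ a).det := by
    rw [degree, finsum_eq_sum_of_support_subset]
    intro a ha
    exact Finset.mem_coe.mpr ((hmem a).mpr (Or.inl (Or.inr ha)))
  have e4 : ∑ᶠ a, Q.c a = ∑ a ∈ F, Q.c a := by
    rw [finsum_eq_sum_of_support_subset]
    intro a ha
    exact Finset.mem_coe.mpr ((hmem a).mpr (Or.inr ha))
  rw [e4] at hc
  have hc' : (∑ a ∈ F, (Q.c a : ℤ)) ≤ 2 := by exact_mod_cast hc
  have h1 : 0 ≤ ∑ a ∈ F, (r * ordOver a (g a).det + ordOver a (H₁ a).det +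
      ordOver a (H₂ a).det) := Finset.sum_nonneg fun a _ => claim4 a
  have h2 : ∑ a ∈ F, (r * ordOver a (g a).det + ordOver a (H₁ a).det +
      ordOver a (H₂ a).det) ≤ ∑ a ∈ F, (r * ordOver a (g a).det + (ordOver a (H₀ a).det + Q.c a) +
      ordOver a (H₂ a).det) := by
    apply Finset.sum_le_sum
    intro a _
    have := claim5 a
    linarith
  simp only [Finset.sum_add_distrib, ← Finset.mul_sum] at h1 h2
  have h3 : (r : ℤ) * degree g = -(r * ∑ a ∈ F, ordOver a (g a).det) := by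
    rw [e1]; ring
  have h4 : (1 : ℤ) ≤ r * degree g := by
    have : (0 : ℤ) < r * degree g := mul_pos (by exact_mod_cast hr) hdg
    omega
  omega

end

end Pool.Agent.Helper38.Scroll
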