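import Pool.Agent.Helper38.Scroll.P8

/-!
# Global sections with prescribed local behaviour
-/

set_option linter.unusedSectionVars false

namespace Pool.Agent.Helper38.Scroll

open Polynomial Matrix Module

section

variable {k : Type} [Field k] {U : Type} [AddCommGroup U] [Module (RatFunc k) U] [Module k U]
  [IsScalarTower k (RatFunc k) U]

lemma unif_inv_mem {a b : k} (h : a ≠ b) : (unifAt (some a))⁻¹ ∈ localRing (some b) := by
  have h0 : unifAt (some a) ≠ 0 := unifAt_ne_zero _
  rw [mem_localRing_of_ne (inv_ne_zero h0), ordAt_inv _ h0, unifAt_some,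
    ordAt_poly b (X_sub_C_ne_zero a), rootMultiplicity_eq_zero]
  · simp
  · rw [IsRoot.def, eval_sub, eval_X, eval_C, sub_eq_zero]
    exact h.symm

/-- Strong approximation on the affine line. -/
lemma LatticeFamily.approx_affine (L : LatticeFamily k U) (a : k) (u : U) :
    ∃ u', u' - u ∈ L.W (some a) ∧ ∀ b : k, b ≠ a → u' ∈ L.W (some b) := by
  obtain ⟨f, hf0, -, hf⟩ := L.exists_denom u
  obtain ⟨q, hq, hndvd⟩ := exists_eq_pow_rootMultiplicity_mul_and_not_dvd f hf0 a
  set m := f.rootMultiplicity a with hm
  obtain ⟨N, hN⟩ := L.absorb (some a) u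
  have hcop : IsCoprime ((X - C a) ^ N) q := by
    apply IsCoprime.pow_left
    exact ((irreducible_X_sub_C a).prime.coprime_iff_not_dvd).mpr hndvd
  obtain ⟨α, β, hαβ⟩ := hcop
  refine ⟨(algebraMap k[X] (RatFunc k) (β * q)) • u, ?_, ?_⟩
  · have h1 : (algebraMap k[X] (RatFunc k) (β * q)) • u - u =
        (algebraMap k[X] (RatFunc k) (-α)) • ((unifAt (some a)) ^ N • u) := by
      have h2 : β * q = 1 - α * (X - C a) ^ N := by
        rw [← hαβ]; ring
      rw [h2, map_sub, map_one, sub_smul, one_smul, sub_sub_cancel_left, map_mul, map_pow,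
        ← unifAt_some, mul_smul, map_neg, neg_smul]
    rw [h1]
    exact L.smul_mem (poly_mem a _) hN
  · intro b hb
    have h1 : (algebraMap k[X] (RatFunc k) q) • u =
        ((unifAt (some a))⁻¹) ^ m • ((algebraMap k[X] (RatFunc k) f) • u) := by
      rw [hq, map_mul, map_pow, ← unifAt_some, smul_smul, ← mul_assoc, ← mul_pow,
        inv_mul_cancel₀ (unifAt_ne_zero _), one_pow, one_mul]
    rw [map_mul, mul_smul, h1]
    exact L.smul_mem (poly_mem b _) (L.smul_mem (pow_mem (unif_inv_mem hb.symm) _) (hf b))

/-- Vanishing implies approximation. -/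
lemma LatticeFamily.approx (L : LatticeFamily k U) (h : ∀ u, u ∈ L.W0 ⊔ L.Wi) (a : Option k)
    (u : U) : ∃ s, s - u ∈ L.W a ∧ ∀ b, b ≠ a → s ∈ L.W b := by
  cases a with
  | none =>
    obtain ⟨w0, h0, wi, hi, rfl⟩ := Submodule.mem_sup.mp (h u)
    refine ⟨w0, ?_, ?_⟩
    · rw [sub_add_cancel_left]
      exact (L.W none).neg_mem hi
    · intro b hb
      obtain ⟨b, rfl⟩ := Option.ne_none_iff_exists'.mp hb
      exact h0 b
  | some a =>
    obtain ⟨u', hu1, hu2⟩ := L.approx_affine a u
    obtain ⟨w0, h0, wi, hi, hw⟩ := Submodule.mem_sup.mp (h u')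
    refine ⟨wi, ?_, ?_⟩
    · have : wi - u = (u' - u) - w0 := by rw [← hw]; abel
      rw [this]
      exact (L.W (some a)).sub_mem hu1 (h0 a)
    · intro b hb
      cases b with
      | none => exact hi
      | some b =>
        have hb' : b ≠ a := fun h => hb (by rw [h])
        have : wi = u' - w0 := by rw [← hw]; abel
        rw [this]
        exact (L.W (some b)).sub_mem (hu2 b hb') (h0 b)

end

section

variable {k K : Type} [Field k] [Field K] [Algebra (RatFunc k) K] [Algebra k K]
  [IsScalarTower k (RatFunc k) K] {n : ℕ}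

variable [IsAlgClosed k] [CharZero k] [FiniteDimensional (RatFunc k) K]

lemma locMap_transpose (a : Option k) (w : K) (g : Matrix (Fin n) (Fin n) K)
    (T : Matrix (Fin n) (Fin n) (regRing k K a)) : (locMap a w g T)ᵀ = locMap a w g Tᵀ := by
  rw [locMap_apply, locMap_apply, Matrix.transpose_smul, Matrix.transpose_mul,
    Matrix.transpose_mul, Matrix.transpose_transpose, Matrix.transpose_map, Matrix.mul_assoc]

variable (Q : Conditions k K n)

/-- Global sections with prescribed local behaviour. -/
theorem exists_section {g : Option k → Matrix (Fin n) (Fin n) K} (hg : IsBundle g)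
    {w : Option k → K} (hw : ∀ a, IsCanonicalGenerator a (w a)) (hpos : HasPositiveQuotients g)
    (hc : ∑ᶠ a, Q.c a ≤ 2) (a : Option k) (T : Matrix (Fin n) (Fin n) (regRing k K a))
    (hT : T.IsSymm) : ∃ s : GlobalSection g w, s.loc a - T ∈ Jmod (Q.Λ a) ∧
      ∀ b, b ≠ a → s.loc b ∈ Jmod (Q.Λ b) := by
  classical
  obtain ⟨s, hsa, hsb⟩ := (latFam Q hg hw).approx (vanishing Q hg hw hpos hc) a
    (locMap a (w a) (g a) T)
  obtain ⟨Ja, hJa, hJa'⟩ := hsa
  choose! J hJ hJ' using hsb
  -- local coordinates of s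
  let half : ∀ b : Option k, regRing k K b := fun b => algebraMap k (regRing k K b) (1 / 2)
  have hhalf : ∀ b, (half b : K) = 1 / 2 := by
    intro b
    have h1 : (half b : K) = algebraMap k K (1 / 2) := rfl
    rw [h1, map_div₀, map_one, map_ofNat]
  let t : ∀ b, Matrix (Fin n) (Fin n) (regRing k K b) :=
    Function.update J a (T + Ja)
  have hta : t a = T + Ja := Function.update_self _ _ _
  have htb : ∀ b, b ≠ a → t b = J b := fun b hb => Function.update_of_ne hb _ _
  have hs : ∀ b, s = locMap b (w b) (g b) (t b) := by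
    intro b
    by_cases hb : b = a
    · subst hb
      rw [hta, map_add, hJa']
      abel
    · rw [htb b hb]
      exact (hJ' b hb).symm
  refine ⟨⟨(1 / 2 : K) • (s + sᵀ), fun b => half b • (t b + (t b)ᵀ), ?_, ?_⟩, ?_, ?_⟩
  · intro b
    change (half b • (t b + (t b)ᵀ))ᵀ = _
    rw [Matrix.transpose_smul, Matrix.transpose_add, Matrix.transpose_transpose, add_comm]
  · intro b
    have h1 : s + sᵀ = locMap b (w b) (g b) (t b + (t b)ᵀ) := by
      rw [map_add, ← locMap_transpose, ← hs b]
    rw [← locMap_apply, map_smul, ← h1]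
    change (1 / 2 : K) • (s + sᵀ) = (half b : K) • (s + sᵀ)
    rw [hhalf]
  · change half a • (t a + (t a)ᵀ) - T ∈ _
    have h1 : half a • (t a + (t a)ᵀ) - T = half a • (Ja + Jaᵀ) := by
      rw [hta, Matrix.transpose_add, hT]
      have hK : CharZero K := charZero_of_injective_algebraMap (algebraMap k K).injective
      have h2 : (half a + half a) • T = T := by
        have : half a + half a = 1 := by
          apply Subtype.ext
          change (half a : K) + (half a : K) = 1
          rw [hhalf]
          norm_num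
        rw [this, one_smul]
      have h3 : half a • (T + Ja + (T + Jaᵀ)) = (half a + half a) • T + half a • (Ja + Jaᵀ) := by
        rw [add_smul, smul_add, smul_add, smul_add, smul_add]; abel
      rw [h3, h2]
      abel
    rw [h1]
    exact Submodule.smul_mem _ _ (Submodule.add_mem _ hJa (Jmod_transpose hJa))
  · intro b hb
    change half b • (t b + (t b)ᵀ) ∈ _
    rw [htb b hb]
    exact Submodule.smul_mem _ _ (Submodule.add_mem _ (hJ b hb) (Jmod_transpose (hJ b hb)))

end

end Pool.Agent.Helper38.Scroll
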